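import Pool.Agent.RieszSmall.One

set_option autoImplicit false

open Real Finset

namespace Pool.Agent.RieszSmall

section

variable {V : Type*} [NormedAddCommGroup V] [InnerProductSpace ℝ V]

/-- A regular simplex with `card κ + 1` vertices inscribed in the unit sphere of the span of an
orthonormal family indexed by `κ`. -/
lemma exists_simplex {κ : Type*} [Fintype κ] [DecidableEq κ] {e : κ → V} (he : Orthonormal ℝ e)
    (hκ : 1 ≤ Fintype.card κ) :
    ∃ y : Option κ → V, (∀ o, ‖y o‖ = 1) ∧
      (∀ o o', o ≠ o' → inner ℝ (y o) (y o') = -1 / (Fintype.card κ : ℝ)) ∧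
      (∀ v : V, (∀ k, inner ℝ (e k) v = (0 : ℝ)) → ∀ o, inner ℝ (y o) v = (0 : ℝ)) := by
  set M : ℝ := (Fintype.card κ : ℝ) with hM
  have hM1 : 1 ≤ M := by rw [hM]; exact_mod_cast hκ
  have hM0 : 0 < M := by linarith
  set s : V := ∑ k, e k with hs
  have hee : ∀ i j, inner ℝ (e i) (e j) = if i = j then (1 : ℝ) else 0 := fun i j =>
    (orthonormal_iff_ite.1 he) i j
  have hse : ∀ k, (inner ℝ s (e k) : ℝ) = 1 := by
    intro k
    rw [hs, sum_inner]
    simp [hee]
  have hss : (inner ℝ s s : ℝ) = M := by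
    nth_rewrite 2 [hs]
    rw [inner_sum]
    simp [hse, hM]
  set r : ℝ := 1 / √M with hr
  have hr2 : r ^ 2 = 1 / M := by rw [hr, div_pow, Real.sq_sqrt hM0.le, one_pow]
  set A : ℝ := √((M + 1) / M) with hA
  have hA2 : A ^ 2 = (M + 1) / M := Real.sq_sqrt (by positivity)
  set B : ℝ := (r - A) / M with hB
  have hBM : B * M = r - A := by rw [hB]; field_simp
  have hAB : 2 * A * B + B ^ 2 * M = -1 / M := by
    have h1 : 2 * A * B + B ^ 2 * M = B * (B * M + 2 * A) := by ring
    rw [h1, hBM]
    have h2 : B * (r - A + 2 * A) = (r ^ 2 - A ^ 2) / M := by rw [hB]; field_simp; ring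
    rw [h2, hr2, hA2]
    field_simp
    ring
  have hkk : ∀ k l, (inner ℝ (A • e k + B • s) (A • e l + B • s) : ℝ)
      = A ^ 2 * (if k = l then 1 else 0) + -1 / M := by
    intro k l
    rw [inner_add_left, inner_add_right, inner_add_right, real_inner_smul_left,
      real_inner_smul_left, real_inner_smul_left, real_inner_smul_left, real_inner_smul_right,
      real_inner_smul_right, real_inner_smul_right, real_inner_smul_right, hee, hse, hss,
      real_inner_comm s (e k), hse, ← hAB]
    ring
  have h0k : ∀ k, (inner ℝ (-r • s) (A • e k + B • s) : ℝ) = -1 / M := by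
    intro k
    rw [real_inner_smul_left, inner_add_right, real_inner_smul_right, real_inner_smul_right, hse,
      hss, hBM]
    have : -r * (A * 1 + (r - A)) = -r ^ 2 := by ring
    rw [this, hr2]; ring
  have h00 : (inner ℝ (-r • s) (-r • s) : ℝ) = 1 := by
    rw [real_inner_smul_left, real_inner_smul_right, hss]
    have : -r * (-r * M) = r ^ 2 * M := by ring
    rw [this, hr2]; field_simp
  refine ⟨fun o => match o with
    | none => -r • s
    | some k => A • e k + B • s, ?_, ?_, ?_⟩
  · intro o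
    rcases o with _ | k
    · have h1 : ‖-r • s‖ ^ 2 = 1 := by rw [← real_inner_self_eq_norm_sq, h00]
      have h2 := norm_nonneg (-r • s)
      simp only
      nlinarith
    · have h1 : ‖A • e k + B • s‖ ^ 2 = 1 := by
        rw [← real_inner_self_eq_norm_sq, hkk, if_pos rfl, hA2]
        field_simp
        ring
      have h2 := norm_nonneg (A • e k + B • s)
      simp only
      nlinarith
  · intro o o' hoo
    rcases o with _ | k <;> rcases o' with _ | l
    · exact absurd rfl hoo
    · exact h0k l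
    · simp only
      rw [real_inner_comm]; exact h0k k
    · have hkl : k ≠ l := fun h => hoo (by rw [h])
      simp only
      rw [hkk, if_neg hkl]; ring
  · intro v hv o
    have hsv : (inner ℝ s v : ℝ) = 0 := by
      rw [hs, sum_inner]
      exact Finset.sum_eq_zero (fun k _ => hv k)
    rcases o with _ | k
    · simp only
      rw [real_inner_smul_left, hsv, mul_zero]
    · simp only
      rw [inner_add_left, real_inner_smul_left, real_inner_smul_left, hv, hsv]; ring

/-- Existence of two orthogonal simplices with `a + 1` and `b + 1` vertices in dimension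
`a + b`. -/
lemma exists_orth {a b N : ℕ} (ha : 1 ≤ a) (hb : 1 ≤ b) (hN : N = a + b + 2) :
    ∃ (x : Fin N → EuclideanSpace ℝ (Fin (a + b))) (P : Finset (Fin N)),
      (∀ i, ‖x i‖ = 1) ∧ P.card = a + 1 ∧ OrthSimplices P x := by
  classical
  let ob := (EuclideanSpace.basisFun (Fin (a + b)) ℝ).reindex (finSumFinEquiv (m := a) (n := b)).symm
  have hob := ob.orthonormal
  have hoL : Orthonormal ℝ (fun k : Fin a => ob (Sum.inl k)) := hob.comp _ Sum.inl_injective
  have hoR : Orthonormal ℝ (fun k : Fin b => ob (Sum.inr k)) := hob.comp _ Sum.inr_injective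
  obtain ⟨y, hy1, hy2, hy3⟩ := exists_simplex hoL (by rw [Fintype.card_fin]; exact ha)
  obtain ⟨w, hw1, hw2, hw3⟩ := exists_simplex hoR (by rw [Fintype.card_fin]; exact hb)
  rw [Fintype.card_fin] at hy2 hw2
  have hcr : ∀ o o', inner ℝ (y o) (w o') = (0 : ℝ) := by
    intro o o'
    apply hy3
    intro k
    rw [real_inner_comm]
    apply hw3
    intro l
    exact hob.2 (by simp)
  let E : Option (Fin a) ⊕ Option (Fin b) ≃ Fin N := Fintype.equivOfCardEq (by
    simp only [Fintype.card_sum, Fintype.card_option, Fintype.card_fin]; omega)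
  let u : Option (Fin a) ⊕ Option (Fin b) → EuclideanSpace ℝ (Fin (a + b)) := Sum.elim y w
  let P : Finset (Fin N) := Finset.univ.map ((Function.Embedding.inl).trans E.toEmbedding)
  have hmem : ∀ i, i ∈ P ↔ ∃ o, E (Sum.inl o) = i := by
    intro i
    simp [P]
  have hPcard : P.card = a + 1 := by simp [P]
  have hPc : Pᶜ.card = b + 1 := by
    rw [Finset.card_compl, hPcard, Fintype.card_fin]; omega
  have hmemc : ∀ i, i ∈ Pᶜ ↔ ∃ o, E (Sum.inr o) = i := by
    intro i
    rw [Finset.mem_compl, hmem]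
    constructor
    · intro h
      obtain ⟨z, hz⟩ := E.surjective i
      rcases z with o | o
      · exact absurd ⟨o, hz⟩ h
      · exact ⟨o, hz⟩
    · rintro ⟨o, ho⟩ ⟨o', ho'⟩
      have := E.injective (ho.trans ho'.symm)
      simp at this
  refine ⟨fun i => u (E.symm i), P, ?_, hPcard, ?_, ?_, ?_⟩
  · have hu : ∀ z, ‖u z‖ = 1 := by
      rintro (o | o)
      · exact hy1 o
      · exact hw1 o
    intro i
    exact hu _
  · intro i hi j hj hij
    obtain ⟨o, rfl⟩ := (hmem i).1 hi
    obtain ⟨o', rfl⟩ := (hmem j).1 hj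
    simp only [Equiv.symm_apply_apply, u, Sum.elim_inl]
    rw [hy2 o o' (fun h => hij (by rw [h])), hPcard]
    push_cast; ring
  · intro i hi j hj hij
    obtain ⟨o, rfl⟩ := (hmemc i).1 hi
    obtain ⟨o', rfl⟩ := (hmemc j).1 hj
    simp only [Equiv.symm_apply_apply, u, Sum.elim_inr]
    rw [hw2 o o' (fun h => hij (by rw [h])), hPc]
    push_cast; ring
  · intro i hi j hj
    obtain ⟨o, rfl⟩ := (hmem i).1 hi
    obtain ⟨o', rfl⟩ := (hmemc j).1 hj
    simp only [Equiv.symm_apply_apply, u, Sum.elim_inl, Sum.elim_inr]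
    exact hcr o o'

/-- Families with the same Gram matrix differ by an isometry. -/
lemma exists_isometry [FiniteDimensional ℝ V] {ι : Type*} [Fintype ι] {f g : ι → V}
    (h : ∀ i j, inner ℝ (f i) (f j) = (inner ℝ (g i) (g j) : ℝ)) :
    ∃ A : V ≃ₗᵢ[ℝ] V, ∀ i, A (f i) = g i := by
  classical
  let T : (ι → ℝ) →ₗ[ℝ] V := Fintype.linearCombination ℝ f
  let T' : (ι → ℝ) →ₗ[ℝ] V := Fintype.linearCombination ℝ g
  have hnorm : ∀ c, ‖T' c‖ = ‖T c‖ := by
    intro c
    have h1 : (inner ℝ (T' c) (T' c) : ℝ) = inner ℝ (T c) (T c) := by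
      simp only [T, T', Fintype.linearCombination_apply, sum_inner, inner_sum, inner_smul_left,
        inner_smul_right, h]
    rw [real_inner_self_eq_norm_sq, real_inner_self_eq_norm_sq] at h1
    have h2 := norm_nonneg (T' c)
    have h3 := norm_nonneg (T c)
    nlinarith
  obtain ⟨R, hR⟩ := T.rangeRestrict.exists_rightInverse_of_surjective
    (LinearMap.range_rangeRestrict T)
  have hTR : ∀ v : LinearMap.range T, T (R v) = v := by
    intro v
    have := LinearMap.congr_fun hR v
    have h2 := congrArg Subtype.val this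
    simpa using h2
  let L : LinearMap.range T →ₗᵢ[ℝ] V :=
    { toLinearMap := T'.comp R
      norm_map' := by
        intro v
        change ‖T' (R v)‖ = ‖v‖
        rw [hnorm, hTR]
        rfl }
  let A := L.extend
  have hA : ∀ c, A (T c) = T' c := by
    intro c
    have h1 : A ((⟨T c, LinearMap.mem_range_self T c⟩ : LinearMap.range T) : V)
        = L ⟨T c, LinearMap.mem_range_self T c⟩ := L.extend_apply _
    change A (T c) = _ at h1
    rw [h1]
    change T' (R ⟨T c, _⟩) = T' c
    have h2 : T' (R ⟨T c, LinearMap.mem_range_self T c⟩ - c) = 0 := by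
      rw [← norm_eq_zero, hnorm, map_sub, hTR]
      simp
    rw [map_sub, sub_eq_zero] at h2
    exact h2
  refine ⟨A.toLinearIsometryEquiv rfl, fun i => ?_⟩
  have := hA (Pi.single i 1)
  simp only [T, T', Fintype.linearCombination_apply_single, one_smul] at this
  exact this

/-- Two configurations of the same type differ by an isometry and a relabelling. -/
lemma orth_unique [FiniteDimensional ℝ V] {ι : Type*} [Fintype ι] [DecidableEq ι] {x x' : ι → V}
    (hx : ∀ i, ‖x i‖ = 1) (hx' : ∀ i, ‖x' i‖ = 1) {P P' : Finset ι} (hP : P.card = P'.card)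
    (h : OrthSimplices P x) (h' : OrthSimplices P' x') :
    ∃ (A : V ≃ₗᵢ[ℝ] V) (σ : Equiv.Perm ι), ∀ i, x' (σ i) = A (x i) := by
  have hPc : Pᶜ.card = P'ᶜ.card := by rw [Finset.card_compl, Finset.card_compl, hP]
  let e : {i // i ∈ P} ≃ {i // i ∈ P'} := Fintype.equivOfCardEq (by simpa using hP)
  let σ : Equiv.Perm ι := e.extendSubtype
  have hσ1 : ∀ i ∈ P, σ i ∈ P' := fun i hi => e.extendSubtype_mem i hi
  have hσ2 : ∀ i ∈ Pᶜ, σ i ∈ P'ᶜ := fun i hi => by
    rw [Finset.mem_compl] at hi ⊢
    exact e.extendSubtype_not_mem i hi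
  have hgram : ∀ i j, inner ℝ (x i) (x j) = (inner ℝ (x' (σ i)) (x' (σ j)) : ℝ) := by
    intro i j
    by_cases hij : i = j
    · subst hij
      rw [real_inner_self_eq_norm_sq, real_inner_self_eq_norm_sq, hx, hx']
    · have hij' : σ i ≠ σ j := fun h => hij (σ.injective h)
      by_cases hi : i ∈ P <;> by_cases hj : j ∈ P
      · rw [h.1 i hi j hj hij, h'.1 _ (hσ1 i hi) _ (hσ1 j hj) hij', hP]
      · have hj' : j ∈ Pᶜ := Finset.mem_compl.2 hj
        rw [h.2.2 i hi j hj', h'.2.2 _ (hσ1 i hi) _ (hσ2 j hj')]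
      · have hi' : i ∈ Pᶜ := Finset.mem_compl.2 hi
        rw [real_inner_comm, h.2.2 j hj i hi', real_inner_comm,
          h'.2.2 _ (hσ1 j hj) _ (hσ2 i hi')]
      · have hi' : i ∈ Pᶜ := Finset.mem_compl.2 hi
        have hj' : j ∈ Pᶜ := Finset.mem_compl.2 hj
        rw [h.2.1 i hi' j hj' hij, h'.2.1 _ (hσ2 i hi') _ (hσ2 j hj') hij', hPc]
  obtain ⟨A, hA⟩ := exists_isometry hgram
  exact ⟨A, σ, fun i => (hA i).symm⟩

end

end Pool.Agent.RieszSmall
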