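import Pool.Agent.RieszSmall.Key

set_option autoImplicit false

open Real Finset

namespace Pool.Agent.RieszSmall

/-- tangent inequality -/
lemma tangent_ineq {q t y : ℝ} (hq : 0 < q) (ht : 0 < t) (hy : 0 < y) :
    (1 + q) * t ^ q - q * t ^ (q + 1) * y ≤ y ^ (-q) := by
  set z : ℝ := t * y with hz
  have hz0 : 0 < z := mul_pos ht hy
  have h1 : y ^ (-q) = t ^ q * z ^ (-q) := by
    rw [hz, Real.mul_rpow ht.le hy.le, ← mul_assoc, ← Real.rpow_add ht]
    simp
  have h2 : t ^ (q + 1) * y = t ^ q * z := by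
    rw [Real.rpow_add_one ht.ne', hz]; ring
  have h3 : 1 + q - q * z ≤ z ^ (-q) := by
    rw [Real.rpow_def_of_pos hz0]
    have h4 := Real.add_one_le_exp (Real.log z * -q)
    have h5 := Real.log_le_sub_one_of_pos hz0
    nlinarith
  have h4 : (1 + q) * t ^ q - q * t ^ (q + 1) * y = t ^ q * (1 + q - q * z) := by
    rw [mul_assoc q, h2]; ring
  rw [h4, h1]
  exact mul_le_mul_of_nonneg_left h3 (Real.rpow_nonneg ht.le q)

lemma tangent_eq {q t y : ℝ} (hq : 0 < q) (ht : 0 < t) (hy : 0 < y)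
    (h : (1 + q) * t ^ q - q * t ^ (q + 1) * y = y ^ (-q)) : t * y = 1 := by
  set z : ℝ := t * y with hz
  have hz0 : 0 < z := mul_pos ht hy
  have h1 : y ^ (-q) = t ^ q * z ^ (-q) := by
    rw [hz, Real.mul_rpow ht.le hy.le, ← mul_assoc, ← Real.rpow_add ht]
    simp
  have h2 : t ^ (q + 1) * y = t ^ q * z := by
    rw [Real.rpow_add_one ht.ne', hz]; ring
  have h4 : (1 + q) * t ^ q - q * t ^ (q + 1) * y = t ^ q * (1 + q - q * z) := by
    rw [mul_assoc q, h2]; ring
  rw [h4, h1] at h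
  have h5 := mul_left_cancel₀ (Real.rpow_pos_of_pos ht q).ne' h
  by_contra hne
  have h6 := Real.log_lt_sub_one_of_pos hz0 hne
  have h7 := Real.add_one_le_exp (Real.log z * -q)
  rw [← Real.rpow_def_of_pos hz0, ← h5] at h7
  nlinarith

section

variable {ι : Type*} [Fintype ι] [DecidableEq ι] {V : Type*} [NormedAddCommGroup V]
  [InnerProductSpace ℝ V]

/-- the (normalised) energy -/
noncomputable def En (q : ℝ) (x : ι → V) : ℝ :=
  ∑ i, ∑ j, if i = j then 0 else (1 - inner ℝ (x i) (x j)) ^ (-q)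

/-- `c, s` are orthonormal affine... linear dependencies of the points `x`. -/
structure Dep (x : ι → V) (c s : ι → ℝ) : Prop where
  cc : ∑ i, c i ^ 2 = 1
  ss : ∑ i, s i ^ 2 = 1
  cs : ∑ i, c i * s i = 0
  cx : ∑ i, c i • x i = 0
  sx : ∑ i, s i • x i = 0

variable {x : ι → V} {c s : ι → ℝ}

omit [DecidableEq ι] in
lemma Dep.sum_PP (h : Dep x c s) (i : ι) : ∑ j, PP c s i j • x j = 0 := by
  have e : ∀ j, PP c s i j • x j = c i • (c j • x j) + s i • (s j • x j) := by
    intro j; unfold PP; rw [add_smul, mul_smul, mul_smul]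
  simp only [e, Finset.sum_add_distrib, ← Finset.smul_sum, h.cx, h.sx]
  simp

omit [DecidableEq ι] in
lemma Dep.sum_PP_sq (h : Dep x c s) (i : ι) : ∑ j, PP c s i j ^ 2 = dl c s i := by
  have e : ∀ j, PP c s i j ^ 2 = c i ^ 2 * c j ^ 2 + s i ^ 2 * s j ^ 2
      + 2 * (c i * s i) * (c j * s j) := by
    intro j; unfold PP; ring
  simp only [e, Finset.sum_add_distrib, ← Finset.mul_sum, h.cc, h.ss, h.cs]
  unfold dl; ring

lemma Dep.frame (h : Dep x c s) (hx : ∀ i, ‖x i‖ = 1) : Frame c s := by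
  refine ⟨h.cc, h.ss, h.cs, fun i => ?_⟩
  by_contra hcon
  push Not at hcon
  change 1 ≤ dl c s i at hcon
  have h1 := h.sum_PP_sq i
  rw [← Finset.add_sum_erase _ _ (Finset.mem_univ i), PP_self] at h1
  have h2 : 0 ≤ ∑ j ∈ Finset.univ.erase i, PP c s i j ^ 2 :=
    Finset.sum_nonneg (fun j _ => sq_nonneg _)
  have h3 : ∑ j ∈ Finset.univ.erase i, PP c s i j ^ 2 = 0 := by nlinarith
  have h4 := (Finset.sum_eq_zero_iff_of_nonneg (fun j _ => sq_nonneg _)).1 h3
  have h5 := h.sum_PP i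
  rw [← Finset.add_sum_erase _ _ (Finset.mem_univ i), PP_self] at h5
  have h6 : ∑ j ∈ Finset.univ.erase i, PP c s i j • x j = 0 := by
    refine Finset.sum_eq_zero (fun j hj => ?_)
    have := pow_eq_zero_iff (two_ne_zero) |>.1 (h4 j hj)
    rw [this, zero_smul]
  rw [h6, add_zero] at h5
  have h7 : dl c s i ≠ 0 := by linarith
  have h8 := (smul_eq_zero.1 h5).resolve_left h7
  have := hx i
  rw [h8, norm_zero] at this
  norm_num at this

omit [DecidableEq ι] in
/-- Hadamard powers of the projection are positive semidefinite. -/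
lemma schur (x : ι → V) (c s : ι → ℝ) (k : ℕ) :
    ∑ i, ∑ j, PP c s i j ^ k * inner ℝ (x i) (x j)
      = ∑ l ∈ Finset.range (k + 1), (k.choose l : ℝ) * ‖∑ i, (c i ^ l * s i ^ (k - l)) • x i‖ ^ 2 := by
  have h1 : ∀ l, ‖∑ i, (c i ^ l * s i ^ (k - l)) • x i‖ ^ 2
      = ∑ i, ∑ j, (c i ^ l * s i ^ (k - l)) * (c j ^ l * s j ^ (k - l)) * inner ℝ (x i) (x j) := by
    intro l
    rw [← real_inner_self_eq_norm_sq, sum_inner]
    refine Finset.sum_congr rfl (fun i _ => ?_)
    rw [inner_sum]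
    refine Finset.sum_congr rfl (fun j _ => ?_)
    rw [real_inner_smul_left, real_inner_smul_right]
    ring
  simp only [h1, Finset.mul_sum]
  symm
  rw [Finset.sum_comm]
  refine Finset.sum_congr rfl (fun i _ => ?_)
  rw [Finset.sum_comm]
  refine Finset.sum_congr rfl (fun j _ => ?_)
  symm
  unfold PP
  rw [add_pow, Finset.sum_mul]
  refine Finset.sum_congr rfl (fun l _ => ?_)
  rw [mul_pow, mul_pow]
  ring

omit [DecidableEq ι] in
lemma schur_nonneg (x : ι → V) (c s : ι → ℝ) (k : ℕ) :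
    0 ≤ ∑ i, ∑ j, PP c s i j ^ k * inner ℝ (x i) (x j) := by
  rw [schur]
  exact Finset.sum_nonneg (fun l _ => by positivity)

/-- the dual pairing -/
noncomputable def Yg (q : ℝ) (x : ι → V) (c s : ι → ℝ) : ℝ :=
  ∑ i, ∑ j, (1 - PP c s i j) ^ (q + 1) * inner ℝ (x i) (x j)

omit [DecidableEq ι] in
lemma Dep.sum_PP_inner (h : Dep x c s) : ∑ i, ∑ j, PP c s i j * inner ℝ (x i) (x j) = 0 := by
  refine Finset.sum_eq_zero (fun i _ => ?_)
  have : ∑ j, PP c s i j * inner ℝ (x i) (x j) = inner ℝ (x i) (∑ j, PP c s i j • x j) := by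
    rw [inner_sum]
    refine Finset.sum_congr rfl (fun j _ => ?_)
    rw [real_inner_smul_right]
  rw [this, h.sum_PP, inner_zero_right]

omit [DecidableEq ι] in
lemma sum_inner_all (x : ι → V) : ∑ i, ∑ j, inner ℝ (x i) (x j) = ‖∑ i, x i‖ ^ 2 := by
  rw [← real_inner_self_eq_norm_sq, sum_inner]
  refine Finset.sum_congr rfl (fun i _ => ?_)
  rw [inner_sum]

lemma Dep.Yg_hasSum (h : Dep x c s) (hx : ∀ i, ‖x i‖ = 1) (q : ℝ) :
    HasSum (fun n : ℕ => W q n * ∑ i, ∑ j, PP c s i j ^ (n + 2) * inner ℝ (x i) (x j))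
      (Yg q x c s - ‖∑ i, x i‖ ^ 2) := by
  have hf := h.frame hx
  have h1 : HasSum (fun n : ℕ => ∑ i, ∑ j, (W q n * PP c s i j ^ (n + 2)) * inner ℝ (x i) (x j))
      (∑ i, ∑ j, ((1 - PP c s i j) ^ (q + 1) - 1 + (1 + q) * PP c s i j) * inner ℝ (x i) (x j)) :=
    hasSum_sum (fun i _ => hasSum_sum (fun j _ => (hasSum_W q (hf.abs_PP_lt i j)).mul_right _))
  have e1 : (fun n : ℕ => W q n * ∑ i, ∑ j, PP c s i j ^ (n + 2) * inner ℝ (x i) (x j))
      = fun n : ℕ => ∑ i, ∑ j, (W q n * PP c s i j ^ (n + 2)) * inner ℝ (x i) (x j) := by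
    ext n
    rw [Finset.mul_sum]
    refine Finset.sum_congr rfl (fun i _ => ?_)
    rw [Finset.mul_sum]
    refine Finset.sum_congr rfl (fun j _ => ?_)
    ring
  have e2 : Yg q x c s - ‖∑ i, x i‖ ^ 2
      = ∑ i, ∑ j, ((1 - PP c s i j) ^ (q + 1) - 1 + (1 + q) * PP c s i j) * inner ℝ (x i) (x j) := by
    have e3 : ∀ i j, ((1 - PP c s i j) ^ (q + 1) - 1 + (1 + q) * PP c s i j) * inner ℝ (x i) (x j)
        = (1 - PP c s i j) ^ (q + 1) * inner ℝ (x i) (x j) - inner ℝ (x i) (x j)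
          + (1 + q) * (PP c s i j * inner ℝ (x i) (x j)) := by
      intro i j; ring
    simp only [e3, Finset.sum_add_distrib, Finset.sum_sub_distrib, ← Finset.mul_sum,
      h.sum_PP_inner, sum_inner_all]
    unfold Yg
    ring
  rw [e1, e2]
  exact h1

lemma Dep.Yg_ge (h : Dep x c s) (hx : ∀ i, ‖x i‖ = 1) {q : ℝ} (h0 : 0 ≤ q) (h1 : q ≤ 1) :
    ‖∑ i, x i‖ ^ 2 ≤ Yg q x c s := by
  have := (h.Yg_hasSum hx q).nonneg (fun n => mul_nonneg (W_nonneg h0 h1 n) (schur_nonneg x c s _))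
  linarith

/-- pairwise excess -/
lemma Dep.En_ge (h : Dep x c s) (hx : ∀ i, ‖x i‖ = 1)
    (hlt : ∀ i j, i ≠ j → (inner ℝ (x i) (x j) : ℝ) < 1) {q : ℝ} (h0 : 0 < q) :
    Bc q c s + q * Yg q x c s ≤ En q x ∧
    (Bc q c s + q * Yg q x c s = En q x → ∀ i j, i ≠ j →
      (1 - PP c s i j) * (1 - inner ℝ (x i) (x j)) = 1) := by
  have hf := h.frame hx
  have hpos : ∀ i j, 0 < 1 - PP c s i j := fun i j => by
    have := (abs_lt.1 (hf.abs_PP_lt i j)).2
    linarith
  set A : ι → ι → ℝ := fun i j => if i = j then 0 else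
    ((1 + q) * (1 - PP c s i j) ^ q - q * (1 - PP c s i j) ^ (q + 1) * (1 - inner ℝ (x i) (x j)))
    with hA
  have hsum : ∑ i, ∑ j, A i j = Bc q c s + q * Yg q x c s := by
    have e1 : ∀ i j, A i j = (F q (PP c s i j)
        + q * ((1 - PP c s i j) ^ (q + 1) * inner ℝ (x i) (x j)))
        - (if i = j then (1 + q) * (1 - dl c s i) ^ q else 0) := by
      intro i j
      simp only [hA]
      split_ifs with hij
      · subst hij
        rw [PP_self, real_inner_self_eq_norm_sq, hx]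
        unfold F
        have h2 := hpos i i
        rw [PP_self] at h2
        rw [Real.rpow_add_one h2.ne']
        ring
      · unfold F
        rw [Real.rpow_add_one (hpos i j).ne']
        ring
    simp only [e1, Finset.sum_sub_distrib, Finset.sum_add_distrib, Finset.sum_ite_eq,
      Finset.mem_univ, if_true, ← Finset.mul_sum]
    unfold Bc Yg
    ring
  have hle : ∀ i j, A i j ≤ if i = j then 0 else (1 - inner ℝ (x i) (x j)) ^ (-q) := by
    intro i j
    simp only [hA]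
    split_ifs with hij
    · exact le_refl _
    · exact tangent_ineq h0 (hpos i j) (by linarith [hlt i j hij])
  rw [← hsum]
  unfold En
  refine ⟨Finset.sum_le_sum (fun i _ => Finset.sum_le_sum (fun j _ => hle i j)), ?_⟩
  intro heq i j hij
  have h1 := (Finset.sum_eq_sum_iff_of_le
    (fun i _ => Finset.sum_le_sum (fun j _ => hle i j))).1 heq i (Finset.mem_univ i)
  have h2 := (Finset.sum_eq_sum_iff_of_le (fun j _ => hle i j)).1 h1 j (Finset.mem_univ j)
  simp only [hA, if_neg hij] at h2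
  exact tangent_eq h0 (hpos i j) (by linarith [hlt i j hij]) h2

end

end Pool.Agent.RieszSmall
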