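import Pool.Agent.RieszSmall.Series

set_option autoImplicit false

open Real Finset

namespace Pool.Agent.RieszSmall

variable {ι : Type*} [Fintype ι]

/-- Two orthonormal vectors of `ℝ^ι`, all of whose projections are shorter than one. -/
structure Frame (c s : ι → ℝ) : Prop where
  cc : ∑ i, c i ^ 2 = 1
  ss : ∑ i, s i ^ 2 = 1
  cs : ∑ i, c i * s i = 0
  lt : ∀ i, c i ^ 2 + s i ^ 2 < 1

/-- entries of the orthogonal projection -/
def PP (c s : ι → ℝ) (i j : ι) : ℝ := c i * c j + s i * s j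

/-- cross products -/
def XX (c s : ι → ℝ) (i j : ι) : ℝ := c i * s j - s i * c j

/-- diagonal entries -/
def dl (c s : ι → ℝ) (i : ι) : ℝ := c i ^ 2 + s i ^ 2

variable {c s : ι → ℝ}

omit [Fintype ι] in
lemma PP_self (i : ι) : PP c s i i = dl c s i := by unfold PP dl; ring

omit [Fintype ι] in
lemma PP_comm (i j : ι) : PP c s i j = PP c s j i := by unfold PP; ring

omit [Fintype ι] in
lemma PP_sq_add (i j : ι) : PP c s i j ^ 2 + XX c s i j ^ 2 = dl c s i * dl c s j := by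
  unfold PP XX dl; ring

omit [Fintype ι] in
lemma PP_sq_le (i j : ι) : PP c s i j ^ 2 ≤ dl c s i * dl c s j := by
  rw [← PP_sq_add i j]; nlinarith [sq_nonneg (XX c s i j)]

omit [Fintype ι] in
lemma dl_nonneg (i : ι) : 0 ≤ dl c s i := by unfold dl; positivity

lemma Frame.dl_lt (h : Frame c s) (i : ι) : dl c s i < 1 := h.lt i

lemma Frame.sum_PP_sq (h : Frame c s) (i : ι) : ∑ j, PP c s i j ^ 2 = dl c s i := by
  have e : ∀ j, PP c s i j ^ 2 = c i ^ 2 * c j ^ 2 + s i ^ 2 * s j ^ 2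
      + 2 * (c i * s i) * (c j * s j) := by
    intro j; unfold PP; ring
  simp only [e, Finset.sum_add_distrib, ← Finset.mul_sum, h.cc, h.ss, h.cs]
  unfold dl; ring

lemma Frame.sum_XX_sq (h : Frame c s) (i : ι) : ∑ j, XX c s i j ^ 2 = dl c s i := by
  have e : ∀ j, XX c s i j ^ 2 = c i ^ 2 * s j ^ 2 + s i ^ 2 * c j ^ 2
      - 2 * (c i * s i) * (c j * s j) := by
    intro j; unfold XX; ring
  simp only [e, Finset.sum_add_distrib, Finset.sum_sub_distrib, ← Finset.mul_sum, h.cc, h.ss, h.cs]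
  unfold dl; ring

lemma Frame.sum_dl (h : Frame c s) : ∑ i, dl c s i = 2 := by
  unfold dl
  rw [Finset.sum_add_distrib, h.cc, h.ss]; norm_num

lemma Frame.abs_PP_lt (h : Frame c s) (i j : ι) : |PP c s i j| < 1 := by
  rw [← sq_lt_one_iff_abs_lt_one]
  have h1 := PP_sq_le (c := c) (s := s) i j
  have h2 := dl_nonneg (c := c) (s := s) i
  have h3 := dl_nonneg (c := c) (s := s) j
  nlinarith [h.dl_lt i, h.dl_lt j]

lemma Frame.abs_dl_lt (h : Frame c s) (i : ι) : |dl c s i| < 1 := by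
  rw [abs_of_nonneg (dl_nonneg i)]; exact h.dl_lt i

/-- power sums of the diagonal -/
def DD (c s : ι → ℝ) (n : ℕ) : ℝ := ∑ i, dl c s i ^ n

/-- power sums of the entries -/
def MM (c s : ι → ℝ) (n : ℕ) : ℝ := ∑ i, ∑ j, PP c s i j ^ n

/-- the losses -/
def Lo (c s : ι → ℝ) (n : ℕ) : ℝ := DD c s (n + 1) - MM c s (n + 2)

/-- the lower bound for the energy -/
noncomputable def Bc (q : ℝ) (c s : ι → ℝ) : ℝ :=
  ∑ i, ∑ j, F q (PP c s i j) - (1 + q) * ∑ i, (1 - dl c s i) ^ q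

lemma Frame.hasSum_Bc (h : Frame c s) (q : ℝ) :
    HasSum (fun n : ℕ => W q n * (DD c s (n + 1) + (n + 1) * Lo c s n))
      (Bc q c s - (Fintype.card ι : ℝ) ^ 2 + (1 + q) * (Fintype.card ι : ℝ)) := by
  have h1 : HasSum (fun n : ℕ => ∑ i, ∑ j, (n + 1) * W q n * PP c s i j ^ (n + 2))
      (∑ i, ∑ j, (1 - F q (PP c s i j))) :=
    hasSum_sum (fun i _ => hasSum_sum (fun j _ => hasSum_F q (h.abs_PP_lt i j)))
  have h2 : HasSum (fun n : ℕ => ∑ i, (n + 2) * W q n * dl c s i ^ (n + 1))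
      (∑ i, (1 + q) * (1 - (1 - dl c s i) ^ q)) :=
    hasSum_sum (fun i _ => hasSum_D q (h.abs_dl_lt i))
  have h3 := h2.sub h1
  have e1 : (fun n : ℕ => W q n * (DD c s (n + 1) + (n + 1) * Lo c s n))
      = fun n : ℕ => ∑ i, (n + 2) * W q n * dl c s i ^ (n + 1)
        - ∑ i, ∑ j, (n + 1) * W q n * PP c s i j ^ (n + 2) := by
    ext n
    simp only [← Finset.mul_sum]
    unfold Lo DD MM
    ring
  have e2 : Bc q c s - (Fintype.card ι : ℝ) ^ 2 + (1 + q) * (Fintype.card ι : ℝ)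
      = ∑ i, (1 + q) * (1 - (1 - dl c s i) ^ q) - ∑ i, ∑ j, (1 - F q (PP c s i j)) := by
    simp only [← Finset.mul_sum, Finset.sum_sub_distrib, Finset.sum_const, Finset.card_univ,
      nsmul_eq_mul]
    unfold Bc
    ring
  rw [e1, e2]
  exact h3

lemma Frame.DD_one (h : Frame c s) : DD c s 1 = 2 := by
  unfold DD; simp only [pow_one]; exact h.sum_dl

lemma Frame.DD_succ (h : Frame c s) (n : ℕ) :
    DD c s (n + 1) = ∑ i, ∑ j, dl c s i ^ n * PP c s i j ^ 2 := by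
  unfold DD
  refine Finset.sum_congr rfl (fun i _ => ?_)
  rw [← Finset.mul_sum, h.sum_PP_sq, pow_succ]

lemma Frame.DD_succ' (h : Frame c s) (n : ℕ) :
    DD c s (n + 1) = ∑ i, ∑ j, dl c s j ^ n * PP c s i j ^ 2 := by
  rw [h.DD_succ, Finset.sum_comm]
  refine Finset.sum_congr rfl (fun i _ => Finset.sum_congr rfl (fun j _ => ?_))
  rw [PP_comm]

lemma Frame.Lo_eq (h : Frame c s) (n : ℕ) :
    Lo c s n = ∑ i, ∑ j, PP c s i j ^ 2 * ((dl c s i ^ n + dl c s j ^ n) / 2 - PP c s i j ^ n) := by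
  have h1 : DD c s (n + 1) = (∑ i, ∑ j, dl c s i ^ n * PP c s i j ^ 2
      + ∑ i, ∑ j, dl c s j ^ n * PP c s i j ^ 2) / 2 := by
    rw [← h.DD_succ, ← h.DD_succ']; ring
  unfold Lo
  rw [h1]
  unfold MM
  rw [← Finset.sum_add_distrib, Finset.sum_div, ← Finset.sum_sub_distrib]
  refine Finset.sum_congr rfl (fun i _ => ?_)
  rw [← Finset.sum_add_distrib, Finset.sum_div, ← Finset.sum_sub_distrib]
  refine Finset.sum_congr rfl (fun j _ => ?_)
  ring

/-- The basic pair inequality. -/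
lemma pow_le_avg {a b p : ℝ} (ha : 0 ≤ a) (hb : 0 ≤ b) (hp : p ^ 2 ≤ a * b) (n : ℕ) :
    |p| ^ n ≤ (a ^ n + b ^ n) / 2 := by
  have h1 : |p| ≤ √(a * b) := by
    rw [← Real.sqrt_sq_eq_abs]; exact Real.sqrt_le_sqrt hp
  have h2 : |p| ^ n ≤ √(a * b) ^ n := pow_le_pow_left₀ (abs_nonneg _) h1 n
  have h3 : √(a * b) ^ n = √(a ^ n) * √(b ^ n) := by
    rw [← Real.sqrt_mul (by positivity), ← mul_pow]
    have h4 : (0 : ℝ) ≤ √(a * b) ^ n := by positivity
    rw [eq_comm, Real.sqrt_eq_iff_mul_self_eq (by positivity) h4, ← mul_pow,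
      Real.mul_self_sqrt (by positivity)]
  have h5 : √(a ^ n) ^ 2 = a ^ n := Real.sq_sqrt (by positivity)
  have h6 : √(b ^ n) ^ 2 = b ^ n := Real.sq_sqrt (by positivity)
  rw [h3] at h2
  nlinarith [sq_nonneg (√(a ^ n) - √(b ^ n))]

lemma pair_nonneg {a b p : ℝ} (ha : 0 ≤ a) (hb : 0 ≤ b) (hp : p ^ 2 ≤ a * b) (n : ℕ) :
    0 ≤ p ^ 2 * ((a ^ n + b ^ n) / 2 - p ^ n) := by
  have h1 := pow_le_avg ha hb hp n
  have h2 : p ^ n ≤ |p| ^ n := by rw [← abs_pow]; exact le_abs_self _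
  exact mul_nonneg (sq_nonneg _) (by linarith)

lemma Frame.Lo_nonneg (h : Frame c s) (n : ℕ) : 0 ≤ Lo c s n := by
  rw [h.Lo_eq]
  exact Finset.sum_nonneg (fun i _ => Finset.sum_nonneg (fun j _ =>
    pair_nonneg (dl_nonneg i) (dl_nonneg j) (PP_sq_le i j) n))

lemma Frame.Lo_zero (h : Frame c s) : Lo c s 0 = 0 := by
  rw [h.Lo_eq]
  refine Finset.sum_eq_zero (fun i _ => Finset.sum_eq_zero (fun j _ => ?_))
  simp

/-- If the first loss vanishes the frame splits into clusters. -/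
lemma Frame.cluster (h : Frame c s) (h1 : Lo c s 1 = 0) (i j : ι) :
    PP c s i j = 0 ∨ (PP c s i j = dl c s i ∧ PP c s i j = dl c s j) := by
  rw [h.Lo_eq] at h1
  have hnn : ∀ i j, 0 ≤ PP c s i j ^ 2 * ((dl c s i ^ 1 + dl c s j ^ 1) / 2 - PP c s i j ^ 1) :=
    fun i j => pair_nonneg (dl_nonneg i) (dl_nonneg j) (PP_sq_le i j) 1
  have h2 := (Finset.sum_eq_zero_iff_of_nonneg
    (fun i _ => Finset.sum_nonneg (fun j _ => hnn i j))).1 h1 i (Finset.mem_univ _)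
  have h3 := (Finset.sum_eq_zero_iff_of_nonneg (fun j _ => hnn i j)).1 h2 j (Finset.mem_univ _)
  rcases mul_eq_zero.1 h3 with h4 | h4
  · left; exact pow_eq_zero_iff (two_ne_zero) |>.1 h4
  · right
    simp only [pow_one] at h4
    have h5 := PP_sq_le (c := c) (s := s) i j
    have h6 : PP c s i j = (dl c s i + dl c s j) / 2 := by linarith
    rw [h6] at h5
    have h7 : dl c s i = dl c s j := by
      have : (dl c s i - dl c s j) ^ 2 ≤ 0 := by nlinarith
      have := pow_eq_zero_iff (two_ne_zero) |>.1 (le_antisymm this (sq_nonneg _))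
      linarith
    constructor
    · rw [h6, h7]; ring
    · rw [h6, h7]; ring

end Pool.Agent.RieszSmall
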