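import Pool.Agent.RieszSmall.Odd

set_option autoImplicit false

open Real Finset

namespace Pool.Agent.RieszSmall

variable {ι : Type*} [Fintype ι] {c s : ι → ℝ}

lemma DD_low (h : Frame c s) (n : ℕ) : 2 ^ (n + 1) / (Fintype.card ι : ℝ) ^ n ≤ DD c s (n + 1) := by
  have := pow_sum_div_card_le_sum_pow (s := (Finset.univ : Finset ι)) (f := dl c s)
    (fun i _ => dl_nonneg i) n
  rw [h.sum_dl] at this
  exact this

lemma DD_split [DecidableEq ι] (P : Finset ι) {S T : ℝ} (hS : ∑ i ∈ P, dl c s i = S)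
    (hT : ∑ i ∈ Pᶜ, dl c s i = T) (n : ℕ) :
    S ^ (n + 1) / (P.card : ℝ) ^ n + T ^ (n + 1) / (Pᶜ.card : ℝ) ^ n ≤ DD c s (n + 1) := by
  have h1 := pow_sum_div_card_le_sum_pow (s := P) (f := dl c s) (fun i _ => dl_nonneg i) n
  have h2 := pow_sum_div_card_le_sum_pow (s := Pᶜ) (f := dl c s) (fun i _ => dl_nonneg i) n
  rw [hS] at h1
  rw [hT] at h2
  unfold DD
  rw [← Finset.sum_add_sum_compl P]
  exact add_le_add h1 h2

lemma nonneg_of_terms {q : ℝ} (h0 : 0 < q) (h1 : q < 1) {A B : ℕ → ℝ} {Ex : ℝ}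
    (hs : HasSum (fun n => W q (n + 1) * (A n + (n + 2) * B n)) Ex) (hA : ∀ n, 0 ≤ A n)
    (hB : ∀ n, 0 ≤ B n) : 0 ≤ Ex ∧ (Ex = 0 → B 0 = 0 ∧ A 0 = 0) := by
  have hn : ∀ n : ℕ, 0 ≤ W q (n + 1) * (A n + (n + 2) * B n) := by
    intro n
    have := (W_pos h0 h1 (n + 1)).le
    have := hA n
    have := hB n
    positivity
  refine ⟨hs.nonneg hn, fun hE => ?_⟩
  have h2 := le_hasSum hs 0 (fun n _ => hn n)
  rw [hE] at h2
  have hW := W_pos h0 h1 1
  have h3 : A 0 + 2 * B 0 ≤ 0 := by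
    by_contra hcon
    push Not at hcon
    have := mul_pos hW hcon
    simp at h2
    linarith
  have := hA 0
  have := hB 0
  constructor <;> linarith

theorem Frame.even_key (h : Frame c s) {m : ℕ} (hm : 1 ≤ m)
    (hcard : Fintype.card ι = 2 * m) {q : ℝ} (h0 : 0 < q) (h1 : q < 1) {Ex : ℝ}
    (hs : HasSum (fun n : ℕ => W q (n + 1) * (DD c s (n + 2)
      - ((1 / (m : ℝ)) ^ (n + 1) + (1 / (m : ℝ)) ^ (n + 1)) + (n + 2) * Lo c s (n + 1))) Ex) :
    0 ≤ Ex ∧ (Ex = 0 → Lo c s 1 = 0 ∧ DD c s 2 = 1 / (m : ℝ) + 1 / (m : ℝ)) := by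
  have hm0 : (0 : ℝ) < m := by exact_mod_cast hm
  have h2 := nonneg_of_terms h0 h1 hs (fun n => by
    have h3 := DD_low h (n + 1)
    rw [hcard] at h3
    push_cast at h3
    have h4 : (2 : ℝ) ^ (n + 1 + 1) / (2 * (m : ℝ)) ^ (n + 1)
        = (1 / (m : ℝ)) ^ (n + 1) + (1 / (m : ℝ)) ^ (n + 1) := by
      rw [mul_pow, one_div, inv_pow]
      field_simp
      ring
    rw [h4] at h3
    linarith) (fun n => h.Lo_nonneg (n + 1))
  refine ⟨h2.1, fun hE => ?_⟩
  obtain ⟨h3, h4⟩ := h2.2 hE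
  refine ⟨h3, ?_⟩
  simp only [zero_add, pow_one] at h4
  linarith

theorem Frame.odd_key [DecidableEq ι] (h : Frame c s) {m : ℕ} (hm : 2 ≤ m)
    (hcard : Fintype.card ι = 2 * m + 1) {q : ℝ} (h0 : 0 < q) (h1 : q < 1) {Ex : ℝ}
    (hs : HasSum (fun n : ℕ => W q (n + 1) * (DD c s (n + 2)
      - ((1 / (m : ℝ)) ^ (n + 1) + (1 / ((m : ℝ) + 1)) ^ (n + 1)) + (n + 2) * Lo c s (n + 1))) Ex) :
    0 ≤ Ex ∧ (Ex = 0 → Lo c s 1 = 0 ∧ DD c s 2 = 1 / (m : ℝ) + 1 / ((m : ℝ) + 1)) := by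
  have hm2 : (2 : ℝ) ≤ m := by exact_mod_cast hm
  have hm0 : (0 : ℝ) < m := by linarith
  have hcard' : (Fintype.card ι : ℝ) = 2 * m + 1 := by rw [hcard]; push_cast; ring
  -- termwise conclusion
  have hterm : (∀ n, (1 / (m : ℝ)) ^ (n + 1) + (1 / ((m : ℝ) + 1)) ^ (n + 1) ≤ DD c s (n + 2)) →
      0 ≤ Ex ∧ (Ex = 0 → Lo c s 1 = 0 ∧ DD c s 2 = 1 / (m : ℝ) + 1 / ((m : ℝ) + 1)) := by
    intro hA
    have h2 := nonneg_of_terms h0 h1 hs (fun n => by linarith [hA n]) (fun n => h.Lo_nonneg (n + 1))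
    refine ⟨h2.1, fun hE => ?_⟩
    obtain ⟨h3, h4⟩ := h2.2 hE
    refine ⟨h3, ?_⟩
    simp only [zero_add, pow_one] at h4
    linarith
  obtain ⟨V, η, P, hV0, hη, hP, hQ, hne, hLo⟩ := h.exists_split
  have hDn : ∀ n, 2 ^ (n + 1) / (2 * (m : ℝ) + 1) ^ n ≤ DD c s (n + 1) := by
    intro n
    have := DD_low h n
    rwa [hcard'] at this
  have hD2 : 4 / (2 * (m : ℝ) + 1) ≤ DD c s 2 := by
    have := hDn 1
    norm_num at this
    exact this
  have hL1 : 29 / 100 * V * (4 / (2 * (m : ℝ) + 1)) ≤ Lo c s 1 := by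
    refine le_trans ?_ (hLo 1 _ good_one)
    exact mul_le_mul_of_nonneg_left hD2 (by positivity)
  rcases lt_or_ge (1 / ((m : ℝ) + 1)) V with hVbig | hVsmall
  · -- case I
    have hDlow : ∀ n, -(hh m (n + 1)) ≤ DD c s (n + 2)
        - ((1 / (m : ℝ)) ^ (n + 1) + (1 / ((m : ℝ) + 1)) ^ (n + 1)) := by
      intro n
      have h3 := hDn (n + 1)
      have h4 : 2 * (1 / ((m : ℝ) + 1)) ^ (n + 1) ≤ 2 ^ (n + 1 + 1) / (2 * (m : ℝ) + 1) ^ (n + 1) := by
        have h5 : (2 : ℝ) ^ (n + 1 + 1) / (2 * (m : ℝ) + 1) ^ (n + 1)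
            = 2 * (2 / (2 * (m : ℝ) + 1)) ^ (n + 1) := by
          rw [div_pow]; ring
        rw [h5]
        apply mul_le_mul_of_nonneg_left _ (by norm_num)
        apply pow_le_pow_left₀ (by positivity)
        rw [div_le_div_iff₀ (by linarith) (by linarith)]
        linarith
      have h6 : hh m (n + 1) = (1 / (m : ℝ)) ^ (n + 1) - (1 / ((m : ℝ) + 1)) ^ (n + 1) := rfl
      linarith
    have hT : ∀ n : ℕ, -(hh m (n + 1)) ≤ DD c s (n + 2)
        - ((1 / (m : ℝ)) ^ (n + 1) + (1 / ((m : ℝ) + 1)) ^ (n + 1)) + (n + 2) * Lo c s (n + 1) := by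
      intro n
      have := hDlow n
      have h5 : 0 ≤ ((n : ℝ) + 2) * Lo c s (n + 1) := mul_nonneg (by positivity) (h.Lo_nonneg _)
      linarith
    have hT0 : 2 * (29 / 100 * V * (4 / (2 * (m : ℝ) + 1)))
        - 1 / ((2 * (m : ℝ) + 1) * m * (m + 1)) ≤ DD c s (0 + 2)
        - ((1 / (m : ℝ)) ^ (0 + 1) + (1 / ((m : ℝ) + 1)) ^ (0 + 1))
          + ((0 : ℕ) + 2) * Lo c s (0 + 1) := by
      simp only [zero_add, pow_one, Nat.cast_zero]
      have h5 : 1 / (m : ℝ) + 1 / ((m : ℝ) + 1) - 4 / (2 * (m : ℝ) + 1)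
          = 1 / ((2 * (m : ℝ) + 1) * m * (m + 1)) := by
        field_simp; ring
      linarith
    have hpos : 0 < Ex := by
      rcases hm.eq_or_lt with h2 | h3
      · subst h2
        norm_num at hVbig hT0 hs hT ⊢
        refine numI_two h0 h1 (V := V) (by linarith) hs ?_ ?_ ?_
        · norm_num at hT0 ⊢
          linarith
        · have h4 := hDn 2
          have h5 := h.Lo_nonneg 2
          norm_num at h4 ⊢
          linarith
        · intro n
          have := hT n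
          norm_num at this ⊢
          linarith
      · exact numI_big h0 h1 (m := m) (by exact_mod_cast h3) hVbig.le hs hT0 hT
    exact ⟨hpos.le, fun hE => absurd hE hpos.ne'⟩
  · have hV1 : V < 1 := by
      refine lt_of_le_of_lt hVsmall ?_
      rw [div_lt_one (by linarith)]; linarith
    obtain ⟨hPne, hQne⟩ := hne hV1
    have ha0 : 0 < (P.card : ℝ) := by exact_mod_cast hPne.card_pos
    have hb0 : 0 < (Pᶜ.card : ℝ) := by exact_mod_cast hQne.card_pos
    have habN : P.card + Pᶜ.card = 2 * m + 1 := by rw [Finset.card_add_card_compl, hcard]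
    have hab : (P.card : ℝ) + (Pᶜ.card : ℝ) = 2 * m + 1 := by exact_mod_cast habN
    have hη1 := (abs_le.1 hη).1
    have hη2 := (abs_le.1 hη).2
    have hS0 : 0 ≤ 1 + η := by linarith
    have hT0 : 0 ≤ 1 - η := by linarith
    have hfrac : 1 + 1 / ((m : ℝ) + 1) = (m + 2) / (m + 1) := by field_simp; ring
    by_cases hc1 : P.card ≤ m - 1
    · apply hterm
      intro n
      have hc1' : (P.card : ℝ) ≤ m - 1 := by
        have : P.card + 1 ≤ m := by omega
        have : (P.card : ℝ) + 1 ≤ m := by exact_mod_cast this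
        linarith
      exact case_two (D := DD c s) (n := n + 1) (DD_split P hP hQ (n + 1)) hS0 hT0 (by ring) ha0 hb0
        hm0 hab hc1' (by linarith)
    by_cases hc2 : Pᶜ.card ≤ m - 1
    · apply hterm
      intro n
      have hc2' : (Pᶜ.card : ℝ) ≤ m - 1 := by
        have : Pᶜ.card + 1 ≤ m := by omega
        have : (Pᶜ.card : ℝ) + 1 ≤ m := by exact_mod_cast this
        linarith
      exact case_two (D := DD c s) (n := n + 1)
        (by rw [add_comm]; exact DD_split P hP hQ (n + 1)) hT0 hS0 (by ring) hb0 ha0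
        hm0 (by linarith) hc2' (by linarith)
    have hab3 : ((P.card : ℝ) = m ∧ (Pᶜ.card : ℝ) = m + 1) ∨
        ((P.card : ℝ) = m + 1 ∧ (Pᶜ.card : ℝ) = m) := by
      have : (P.card = m ∧ Pᶜ.card = m + 1) ∨ (P.card = m + 1 ∧ Pᶜ.card = m) := by omega
      rcases this with h2 | h2
      · left; exact ⟨by rw [h2.1], by rw [h2.2]; push_cast; ring⟩
      · right; exact ⟨by rw [h2.1]; push_cast; ring, by rw [h2.2]⟩
    have hC3 : ∀ n : ℕ, (1 / (m : ℝ)) ^ (n + 1) + (1 / ((m : ℝ) + 1)) ^ (n + 1)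
        - ((n : ℝ) + 2) * (V * hh m (n + 1)) ≤ DD c s (n + 2) := by
      intro n
      have := case_three (D := DD c s) (n := n + 1) (m := m) (DD_split P hP hQ (n + 1)) rfl rfl hη
        hS0 hT0 hm0 hab3
      push_cast at this
      have e : ((n : ℝ) + 1 + 1) = n + 2 := by ring
      rw [e] at this
      exact this
    have hT : ∀ n : ℕ, -((n + 2) * (V * hh m (n + 1))) ≤ DD c s (n + 2)
        - ((1 / (m : ℝ)) ^ (n + 1) + (1 / ((m : ℝ) + 1)) ^ (n + 1)) + (n + 2) * Lo c s (n + 1) := by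
      intro n
      have := hC3 n
      have h5 : 0 ≤ ((n : ℝ) + 2) * Lo c s (n + 1) := mul_nonneg (by positivity) (h.Lo_nonneg _)
      linarith
    have hTz : 2 * (29 / 100 * V * (4 / (2 * (m : ℝ) + 1))) - 2 * (V * hh m 1) ≤ DD c s (0 + 2)
        - ((1 / (m : ℝ)) ^ (0 + 1) + (1 / ((m : ℝ) + 1)) ^ (0 + 1))
          + ((0 : ℕ) + 2) * Lo c s (0 + 1) := by
      have := hC3 0
      simp only [zero_add, pow_one, Nat.cast_zero] at this ⊢
      linarith
    obtain ⟨κ, hκ, hκE⟩ : ∃ κ : ℝ, 0 < κ ∧ κ * V ≤ Ex := by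
      rcases hm.eq_or_lt with h2 | h3
      · subst h2
        have hD3 := hDn 2
        have hD4 := hDn 3
        norm_num at hD3 hD4
        have l2 := hLo 2 _ good_two
        have l3 := hLo 3 _ good_three
        have l2' : 1 / 2 * V * (8 / 25) ≤ Lo c s 2 :=
          le_trans (mul_le_mul_of_nonneg_left hD3 (by positivity)) l2
        have l3' : 64 / 100 * V * (16 / 125) ≤ Lo c s 3 :=
          le_trans (mul_le_mul_of_nonneg_left hD4 (by positivity)) l3
        have c1 := hC3 1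
        have c2 := hC3 2
        refine numIII_two h0 h1 hV0 hs ?_ ?_ ?_ ?_
        · norm_num at hTz ⊢
          linarith
        · norm_num at c1 ⊢
          linarith
        · norm_num at c2 ⊢
          linarith
        · intro n
          have := hT n
          norm_num at this ⊢
          linarith
      · exact numIII_big h0 h1 (m := m) (by exact_mod_cast h3) hV0 hs hTz hT
    rcases hV0.eq_or_lt with hz | hpos
    · apply hterm
      intro n
      have := hC3 n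
      rw [← hz] at this
      simp only [zero_mul, mul_zero, sub_zero] at this
      exact this
    · have hpos' : 0 < Ex := lt_of_lt_of_le (mul_pos hκ hpos) hκE
      exact ⟨hpos'.le, fun hE => absurd hE hpos'.ne'⟩

end Pool.Agent.RieszSmall
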