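import Pool.Agent.RieszSmall.Energy

set_option autoImplicit false

open Real Finset

namespace Pool.Agent.RieszSmall

/-- energy of two orthogonal simplices -/
noncomputable def Est (q a b : ℝ) : ℝ :=
  2 * a * b + a ^ 2 * (1 - 1 / a) ^ (q + 1) + b ^ 2 * (1 - 1 / b) ^ (q + 1)

lemma hasSum_one_target (q : ℝ) {a : ℝ} (ha : 1 < a) :
    HasSum (fun n : ℕ => W q n * (1 / a) ^ n) (a ^ 2 * (1 - 1 / a) ^ (q + 1) - a ^ 2 + (1 + q) * a) := by
  have h1 : |1 / a| < 1 := by
    rw [abs_of_pos (by positivity), div_lt_one (by linarith)]; exact ha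
  have h2 := (hasSum_W q h1).mul_left (a ^ 2)
  have e1 : (fun n : ℕ => W q n * (1 / a) ^ n) = fun n : ℕ => a ^ 2 * (W q n * (1 / a) ^ (n + 2)) := by
    ext n
    rw [pow_add]
    have : a ≠ 0 := by linarith
    field_simp
  have e2 : a ^ 2 * (1 - 1 / a) ^ (q + 1) - a ^ 2 + (1 + q) * a
      = a ^ 2 * ((1 - 1 / a) ^ (q + 1) - 1 + (1 + q) * (1 / a)) := by
    have : a ≠ 0 := by linarith
    field_simp
  rw [e1, e2]
  exact h2

lemma hasSum_target (q : ℝ) {a b : ℝ} (ha : 1 < a) (hb : 1 < b) :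
    HasSum (fun n : ℕ => W q n * ((1 / a) ^ n + (1 / b) ^ n))
      (Est q a b - (a + b) ^ 2 + (1 + q) * (a + b)) := by
  have h := (hasSum_one_target q ha).add (hasSum_one_target q hb)
  have e1 : (fun n : ℕ => W q n * ((1 / a) ^ n + (1 / b) ^ n))
      = fun n : ℕ => W q n * (1 / a) ^ n + W q n * (1 / b) ^ n := by
    ext n; ring
  have e2 : Est q a b - (a + b) ^ 2 + (1 + q) * (a + b)
      = a ^ 2 * (1 - 1 / a) ^ (q + 1) - a ^ 2 + (1 + q) * a
        + (b ^ 2 * (1 - 1 / b) ^ (q + 1) - b ^ 2 + (1 + q) * b) := by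
    unfold Est; ring
  rw [e1, e2]
  exact h

section

variable {ι : Type*} [Fintype ι] [DecidableEq ι] {c s : ι → ℝ}

omit [DecidableEq ι] in
lemma Frame.hasSum_excess (h : Frame c s) (q : ℝ) {a b : ℝ} (ha : 1 < a) (hb : 1 < b)
    (hab : a + b = Fintype.card ι) :
    HasSum (fun n : ℕ => W q (n + 1) * (DD c s (n + 2)
      - ((1 / a) ^ (n + 1) + (1 / b) ^ (n + 1)) + (n + 2) * Lo c s (n + 1)))
      (Bc q c s - Est q a b) := by
  have h1 := (h.hasSum_Bc q).sub (hasSum_target q ha hb)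
  have h2 := (hasSum_nat_add_iff' 1).2 h1
  rw [Finset.sum_range_one] at h2
  simp only [zero_add, Nat.cast_zero, pow_zero, h.DD_one, h.Lo_zero, Nat.cast_add, Nat.cast_one] at h2
  have e1 : (fun n : ℕ => W q (n + 1) * (DD c s (n + 2)
      - ((1 / a) ^ (n + 1) + (1 / b) ^ (n + 1)) + (n + 2) * Lo c s (n + 1)))
      = fun n : ℕ => W q (n + 1) * (DD c s (n + 1 + 1) + ((n : ℝ) + 1 + 1) * Lo c s (n + 1))
        - W q (n + 1) * ((1 / a) ^ (n + 1) + (1 / b) ^ (n + 1)) := by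
    ext n
    rw [show n + 2 = n + 1 + 1 by ring]
    ring
  have e2 : Bc q c s - Est q a b = Bc q c s - (Fintype.card ι : ℝ) ^ 2
      + (1 + q) * (Fintype.card ι : ℝ) - (Est q a b - (a + b) ^ 2 + (1 + q) * (a + b))
      - (W q 0 * (2 + 1 * 0) - W q 0 * (1 + 1)) := by
    rw [← hab]; ring
  rw [e1, e2]
  exact h2

lemma Frame.bound (h : Frame c s) (hN : 4 ≤ Fintype.card ι) {q : ℝ} (h0 : 0 < q) (h1 : q < 1) :
    Est q ((Fintype.card ι / 2 : ℕ) : ℝ) ((Fintype.card ι - Fintype.card ι / 2 : ℕ) : ℝ) ≤ Bc q c s ∧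
    (Bc q c s = Est q ((Fintype.card ι / 2 : ℕ) : ℝ) ((Fintype.card ι - Fintype.card ι / 2 : ℕ) : ℝ) →
      Lo c s 1 = 0 ∧ DD c s 2 = 1 / ((Fintype.card ι / 2 : ℕ) : ℝ)
        + 1 / ((Fintype.card ι - Fintype.card ι / 2 : ℕ) : ℝ)) := by
  set N := Fintype.card ι with hNdef
  rcases Nat.even_or_odd' N with ⟨m, hm | hm⟩
  · have e1 : N / 2 = m := by omega
    have e2 : N - N / 2 = m := by omega
    rw [e2, e1]
    have hm2 : 2 ≤ m := by omega
    have hm1 : (1 : ℝ) < m := by exact_mod_cast hm2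
    have h3 := h.hasSum_excess q (a := m) (b := m) hm1 hm1 (by
      rw [← hNdef, hm]; push_cast; ring)
    obtain ⟨h4, h5⟩ := h.even_key (by omega) (hNdef.symm.trans hm) h0 h1 h3
    exact ⟨by linarith, fun hE => h5 (by linarith)⟩
  · have e1 : N / 2 = m := by omega
    have e2 : N - N / 2 = m + 1 := by omega
    rw [e2, e1]
    have hm2 : 2 ≤ m := by omega
    have hm1 : (1 : ℝ) < m := by exact_mod_cast hm2
    have h3 := h.hasSum_excess q (a := m) (b := (m : ℝ) + 1) hm1 (by linarith) (by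
      rw [← hNdef, hm]; push_cast; ring)
    obtain ⟨h4, h5⟩ := h.odd_key (by omega) (hNdef.symm.trans hm) h0 h1 h3
    push_cast
    exact ⟨by linarith, fun hE => h5 (by linarith)⟩

/-- A block structure of a frame. -/
def Blocks (c s : ι → ℝ) (P : Finset ι) : Prop :=
  (∀ i ∈ P, ∀ j ∈ P, PP c s i j = 1 / (P.card : ℝ)) ∧
  (∀ i ∈ Pᶜ, ∀ j ∈ Pᶜ, PP c s i j = 1 / (Pᶜ.card : ℝ)) ∧
  (∀ i ∈ P, ∀ j ∈ Pᶜ, PP c s i j = 0) ∧ 1 < P.card ∧ 1 < Pᶜ.card

omit [DecidableEq ι] [Fintype ι] in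
lemma dist_eq (i j : ι) : (c i - c j) ^ 2 + (s i - s j) ^ 2
    = dl c s i + dl c s j - 2 * PP c s i j := by
  unfold dl PP; ring

/-- the cluster of `i` -/
noncomputable def clu (c s : ι → ℝ) (i : ι) : Finset ι :=
  Finset.univ.filter (fun j => PP c s i j ≠ 0)

omit [DecidableEq ι] in
lemma mem_clu {i j : ι} : j ∈ clu c s i ↔ PP c s i j ≠ 0 := by
  unfold clu; simp

omit [DecidableEq ι] in
lemma Frame.clu_eq (_h : Frame c s)
    (hcl : ∀ i j, PP c s i j = 0 ∨ (PP c s i j = dl c s i ∧ PP c s i j = dl c s j)) {i j : ι}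
    (hij : j ∈ clu c s i) : c i = c j ∧ s i = s j := by
  rw [mem_clu] at hij
  have h1 := (hcl i j).resolve_left hij
  have h2 := dist_eq (c := c) (s := s) i j
  have h3 : (c i - c j) ^ 2 + (s i - s j) ^ 2 = 0 := by rw [h2]; linarith [h1.1, h1.2]
  have h4 := sq_nonneg (c i - c j)
  have h5 := sq_nonneg (s i - s j)
  constructor
  · have : (c i - c j) ^ 2 = 0 := by linarith
    have := pow_eq_zero_iff (two_ne_zero) |>.1 this
    linarith
  · have : (s i - s j) ^ 2 = 0 := by linarith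
    have := pow_eq_zero_iff (two_ne_zero) |>.1 this
    linarith

omit [DecidableEq ι] in
lemma Frame.clu_card (h : Frame c s)
    (hcl : ∀ i j, PP c s i j = 0 ∨ (PP c s i j = dl c s i ∧ PP c s i j = dl c s j)) {i : ι}
    (hi : 0 < dl c s i) : dl c s i = 1 / ((clu c s i).card : ℝ) ∧ 1 < (clu c s i).card := by
  have h1 := h.sum_PP_sq i
  have h2 : ∑ j, PP c s i j ^ 2 = ∑ j ∈ clu c s i, dl c s i ^ 2 := by
    unfold clu
    rw [Finset.sum_filter]
    refine Finset.sum_congr rfl (fun j _ => ?_)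
    by_cases hz : PP c s i j = 0
    · rw [if_neg (by simpa using hz), hz]; norm_num
    · rw [if_pos hz, ((hcl i j).resolve_left hz).1]
  rw [h2, Finset.sum_const, nsmul_eq_mul] at h1
  have h3 : ((clu c s i).card : ℝ) * dl c s i = 1 := by
    have : ((clu c s i).card : ℝ) * dl c s i * dl c s i = 1 * dl c s i := by
      rw [one_mul]; nlinarith
    exact mul_right_cancel₀ hi.ne' this
  have h4 : ((clu c s i).card : ℝ) ≠ 0 := by
    intro h0; rw [h0, zero_mul] at h3; norm_num at h3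
  have h5 : dl c s i = 1 / ((clu c s i).card : ℝ) := by
    field_simp
    linarith
  refine ⟨h5, ?_⟩
  have h6 := h.dl_lt i
  have h7 : (0 : ℝ) < (clu c s i).card := by positivity
  rw [h5, div_lt_one h7] at h6
  exact_mod_cast h6

lemma nat_lemma {a b N : ℕ} (ha : 0 < a) (hb : 0 < b) (hab : a + b ≤ N) (hN : 2 ≤ N)
    (h : (1 : ℝ) / a + 1 / b = 1 / ((N / 2 : ℕ) : ℝ) + 1 / ((N - N / 2 : ℕ) : ℝ)) :
    a + b = N ∧ (a = N / 2 ∨ b = N / 2) := by
  set m := N / 2 with hm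
  set m' := N - N / 2 with hm'
  have hm0 : 0 < m := by omega
  have hm0' : 0 < m' := by omega
  have hmm : m + m' = N := by omega
  have h1 : ((a : ℝ) + b) * (m * m') = (m + m') * (a * b) := by
    have : (a : ℝ) ≠ 0 := by positivity
    have : (b : ℝ) ≠ 0 := by positivity
    have : (m : ℝ) ≠ 0 := by positivity
    have : (m' : ℝ) ≠ 0 := by positivity
    field_simp at h
    linarith
  have h2 : (a + b) * (m * m') = (m + m') * (a * b) := by exact_mod_cast h1
  have h3 : 4 * (m * m') + 1 ≥ (m + m') ^ 2 := by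
    have : m' = m ∨ m' = m + 1 := by omega
    rcases this with h | h
    · rw [h]; nlinarith
    · rw [h]; nlinarith
  have h4 : 4 * (a * b) ≤ (a + b) ^ 2 := by
    zify
    nlinarith [sq_nonneg ((a : ℤ) - b)]
  have h5 : a + b = N := by
    by_contra hne
    have h6 : a + b + 1 ≤ N := by omega
    -- (a+b) (N^2 - 1) ≤ 4 (a+b) m m' = 4 N a b ≤ N (a+b)^2
    have h7 : (a + b) * (N ^ 2) ≤ (a + b) * (4 * (m * m') + 1) := by
      rw [← hmm]; exact Nat.mul_le_mul_left _ h3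
    have h8 : (a + b) * (4 * (m * m')) = 4 * (N * (a * b)) := by
      rw [← hmm]; linarith
    have h9 : 4 * (N * (a * b)) ≤ N * (a + b) ^ 2 := by
      have := Nat.mul_le_mul_left N h4
      linarith
    have h10 : (a + b) * N ^ 2 ≤ N * (a + b) ^ 2 + (a + b) := by nlinarith
    have h11 : N ^ 2 ≤ N * (a + b) + 1 := by
      have hpos : 0 < a + b := by omega
      have : (a + b) * N ^ 2 ≤ (a + b) * (N * (a + b) + 1) := by nlinarith
      exact Nat.le_of_mul_le_mul_left this hpos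
    nlinarith
  refine ⟨h5, ?_⟩
  rw [h5, hmm] at h2
  have h6 : m * m' = a * b := Nat.eq_of_mul_eq_mul_left (by omega) h2
  have h7 : ((a : ℤ) - m) * (b - m) = 0 := by
    have h8 : (m' : ℤ) = a + b - m := by omega
    have h9 : (m : ℤ) * m' = a * b := by exact_mod_cast h6
    rw [h8] at h9
    linarith
  rcases mul_eq_zero.1 h7 with h8 | h8
  · left; omega
  · right; omega

/-- The equality case: the frame is a block frame with balanced blocks. -/
lemma Frame.blocks_of_eq (h : Frame c s) (hN : 4 ≤ Fintype.card ι) (h1 : Lo c s 1 = 0)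
    (h2 : DD c s 2 = 1 / ((Fintype.card ι / 2 : ℕ) : ℝ)
        + 1 / ((Fintype.card ι - Fintype.card ι / 2 : ℕ) : ℝ)) :
    ∃ P : Finset ι, P.card = Fintype.card ι / 2 ∧ Blocks c s P := by
  have hcl := h.cluster h1
  -- first cluster
  obtain ⟨i, hi⟩ : ∃ i, 0 < dl c s i := by
    by_contra hcon
    push Not at hcon
    have h3 : ∑ i, dl c s i ≤ 0 := Finset.sum_nonpos (fun i _ => hcon i)
    rw [h.sum_dl] at h3
    norm_num at h3
  obtain ⟨hia, hia1⟩ := h.clu_card hcl hi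
  set P := clu c s i with hP
  have hPdl : ∀ j ∈ P, dl c s j = dl c s i := by
    intro j hj
    obtain ⟨e1, e2⟩ := h.clu_eq hcl hj
    unfold dl; rw [e1, e2]
  have hPsum : ∑ j ∈ P, dl c s j = 1 := by
    rw [Finset.sum_congr rfl hPdl, Finset.sum_const, nsmul_eq_mul, hia]
    have : (P.card : ℝ) ≠ 0 := by positivity
    field_simp
  have hPc : ∑ j ∈ Pᶜ, dl c s j = 1 := by
    have := Finset.sum_add_sum_compl P (dl c s)
    rw [h.sum_dl, hPsum] at this
    linarith
  obtain ⟨k, hkP, hk⟩ : ∃ k ∈ Pᶜ, 0 < dl c s k := by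
    by_contra hcon
    push Not at hcon
    have h3 : ∑ j ∈ Pᶜ, dl c s j ≤ 0 := Finset.sum_nonpos hcon
    linarith
  obtain ⟨hka, hka1⟩ := h.clu_card hcl hk
  set Q := clu c s k with hQ
  have hQdl : ∀ j ∈ Q, dl c s j = dl c s k := by
    intro j hj
    obtain ⟨e1, e2⟩ := h.clu_eq hcl hj
    unfold dl; rw [e1, e2]
  have hQsum : ∑ j ∈ Q, dl c s j = 1 := by
    rw [Finset.sum_congr rfl hQdl, Finset.sum_const, nsmul_eq_mul, hka]
    have : (Q.card : ℝ) ≠ 0 := by positivity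
    field_simp
  have hik : PP c s i k = 0 := by
    rw [Finset.mem_compl, hP, mem_clu, not_not] at hkP
    exact hkP
  have hdisj : Disjoint P Q := by
    rw [Finset.disjoint_left]
    intro l hl hl'
    obtain ⟨e1, e2⟩ := h.clu_eq hcl hl
    obtain ⟨e3, e4⟩ := h.clu_eq hcl hl'
    have : PP c s i k = dl c s i := by
      unfold PP dl
      rw [e1, e2, e3, e4]; ring
    rw [hik] at this
    linarith
  have hQsub : Q ⊆ Pᶜ := by
    intro l hl
    rw [Finset.mem_compl]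
    exact fun hl' => (Finset.disjoint_left.1 hdisj) hl' hl
  -- everything outside `P ∪ Q` has `dl = 0`
  have hzero : ∀ l, l ∉ P → l ∉ Q → dl c s l = 0 := by
    intro l hlP hlQ
    have h3 : ∑ j ∈ Pᶜ \ Q, dl c s j = 0 := by
      have := Finset.sum_sdiff (f := dl c s) hQsub
      rw [hPc, hQsum] at this
      linarith
    have h4 := (Finset.sum_eq_zero_iff_of_nonneg (fun j _ => dl_nonneg j)).1 h3 l
      (by rw [Finset.mem_sdiff, Finset.mem_compl]; exact ⟨hlP, hlQ⟩)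
    exact h4
  have hDD : DD c s 2 = 1 / (P.card : ℝ) + 1 / (Q.card : ℝ) := by
    unfold DD
    rw [← Finset.sum_add_sum_compl P]
    have h3 : ∑ j ∈ P, dl c s j ^ 2 = 1 / (P.card : ℝ) := by
      rw [Finset.sum_congr rfl (fun j hj => by rw [hPdl j hj]), Finset.sum_const, nsmul_eq_mul, hia]
      have : (P.card : ℝ) ≠ 0 := by positivity
      field_simp
    have h4 : ∑ j ∈ Pᶜ, dl c s j ^ 2 = ∑ j ∈ Q, dl c s j ^ 2 := by
      symm
      apply Finset.sum_subset hQsub
      intro l hl hlQ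
      rw [Finset.mem_compl] at hl
      rw [hzero l hl hlQ]; norm_num
    have h5 : ∑ j ∈ Q, dl c s j ^ 2 = 1 / (Q.card : ℝ) := by
      rw [Finset.sum_congr rfl (fun j hj => by rw [hQdl j hj]), Finset.sum_const, nsmul_eq_mul, hka]
      have : (Q.card : ℝ) ≠ 0 := by positivity
      field_simp
    rw [h3, h4, h5]
  have hcard : P.card + Q.card ≤ Fintype.card ι := by
    rw [← Finset.card_union_of_disjoint hdisj]
    exact Finset.card_le_univ _
  rw [hDD] at h2
  obtain ⟨h5, h6⟩ := nat_lemma (by omega) (by omega) hcard (by omega) h2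
  have hQc : Q = Pᶜ := by
    apply Finset.eq_of_subset_of_card_le hQsub
    rw [Finset.card_compl]; omega
  have hin : ∀ (l : ι) (R : Finset ι), R = clu c s l → dl c s l = 1 / (R.card : ℝ) →
      ∀ a ∈ R, ∀ b ∈ R, PP c s a b = 1 / (R.card : ℝ) := by
    intro l R hR hl a ha b hb
    rw [hR] at ha hb
    obtain ⟨e1, e2⟩ := h.clu_eq hcl ha
    obtain ⟨e3, e4⟩ := h.clu_eq hcl hb
    rw [← hl]
    unfold PP dl
    rw [← e1, ← e2, ← e3, ← e4]; ring
  have hcross : ∀ a ∈ P, ∀ b ∈ Q, PP c s a b = 0 := by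
    intro a ha b hb
    obtain ⟨e1, e2⟩ := h.clu_eq hcl ha
    obtain ⟨e3, e4⟩ := h.clu_eq hcl hb
    rw [← hik]
    unfold PP
    rw [← e1, ← e2, ← e3, ← e4]
  rcases h6 with h6 | h6
  · refine ⟨P, h6, hin i P rfl hia, ?_, ?_, hia1, ?_⟩
    · rw [← hQc]; exact hin k Q rfl hka
    · rw [← hQc]; exact hcross
    · rw [← hQc]; exact hka1
  · refine ⟨Q, h6, hin k Q rfl hka, ?_, ?_, hka1, ?_⟩
    · rw [hQc, compl_compl]; exact hin i P rfl hia
    · rw [hQc, compl_compl, ← hQc]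
      intro a ha b hb
      rw [PP_comm]; exact hcross b hb a ha
    · rw [hQc, compl_compl]; exact hia1

end

end Pool.Agent.RieszSmall
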