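import Pool.Agent.RieszSmall.Split

set_option autoImplicit false

open Real Finset

namespace Pool.Agent.RieszSmall

lemma pow_tangent {x y : ℝ} (hx : 0 ≤ x) (hy : 0 ≤ y) (n : ℕ) :
    x ^ (n + 1) + (n + 1) * x ^ n * (y - x) ≤ y ^ (n + 1) := by
  induction n with
  | zero => simp
  | succ n ih =>
    have h1 := mul_le_mul_of_nonneg_left ih hy
    have h2 : 0 ≤ (n + 1) * x ^ n * (y - x) ^ 2 := by positivity
    have h3 : y * (x ^ (n + 1) + (n + 1) * x ^ n * (y - x))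
        = x ^ (n + 1 + 1) + ((n + 1 : ℕ) + 1) * x ^ (n + 1) * (y - x)
          + (n + 1) * x ^ n * (y - x) ^ 2 := by
      push_cast; ring
    have h4 : y ^ (n + 1 + 1) = y * y ^ (n + 1) := by ring
    rw [h4]
    linarith

/-- lower bound for a block of the diagonal -/
lemma block_low {S a x : ℝ} (hS : 0 ≤ S) (ha : 0 < a) (hx : 0 ≤ x) (n : ℕ) :
    a * x ^ (n + 1) + (n + 1) * x ^ n * (S - a * x) ≤ S ^ (n + 1) / a ^ n := by
  have h1 := pow_tangent hx (div_nonneg hS ha.le) n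
  have h2 := mul_le_mul_of_nonneg_left h1 ha.le
  have h3 : a * (S / a) ^ (n + 1) = S ^ (n + 1) / a ^ n := by
    rw [div_pow, pow_succ a]; field_simp
  have h4 : a * (x ^ (n + 1) + (n + 1) * x ^ n * (S / a - x))
      = a * x ^ (n + 1) + (n + 1) * x ^ n * (S - a * x) := by
    field_simp
  rw [h3, h4] at h2
  exact h2

/-- the difference `m^{-n} - (m+1)^{-n}` -/
noncomputable def hh (m : ℝ) (n : ℕ) : ℝ := (1 / m) ^ n - (1 / (m + 1)) ^ n

lemma hh_nonneg {m : ℝ} (hm : 0 < m) (n : ℕ) : 0 ≤ hh m n := by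
  unfold hh
  have : (1 / (m + 1)) ^ n ≤ (1 / m) ^ n :=
    pow_le_pow_left₀ (by positivity) (one_div_le_one_div_of_le hm (by linarith)) n
  linarith

lemma hh_le {m : ℝ} (hm : 0 < m) (n : ℕ) :
    hh m (n + 1) ≤ (n + 1) * (1 / m) ^ (n + 1) / (m + 1) := by
  have h := pow_tangent (x := 1 / m) (y := 1 / (m + 1)) (by positivity) (by positivity) n
  unfold hh
  have h2 : (n + 1) * (1 / m) ^ n * (1 / (m + 1) - 1 / m)
      = -((n + 1) * (1 / m) ^ (n + 1) / (m + 1)) := by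
    rw [pow_succ (1 / m) n]
    field_simp
    ring
  linarith

lemma hh_le' {m : ℝ} (hm : 0 < m) (n : ℕ) : hh m n ≤ (1 / m) ^ n := by
  unfold hh
  have : (0 : ℝ) ≤ (1 / (m + 1)) ^ n := by positivity
  linarith

section cases

variable {D : ℕ → ℝ} {S T a b m : ℝ}

/-- Case II: unbalanced blocks. -/
lemma case_two {n : ℕ} (hD : S ^ (n + 1) / a ^ n + T ^ (n + 1) / b ^ n ≤ D (n + 1))
    (hS : 0 ≤ S) (hT : 0 ≤ T) (hST : S + T = 2) (ha : 0 < a) (hb : 0 < b) (hm : 0 < m)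
    (hab : a + b = 2 * m + 1) (ham : a ≤ m - 1) (hTb : T ≤ (m + 2) / (m + 1)) :
    (1 / m) ^ n + (1 / (m + 1)) ^ n ≤ D (n + 1) := by
  set x : ℝ := 1 / m with hx
  set y : ℝ := 1 / (m + 1) with hy
  have hx0 : 0 < x := by positivity
  have hy0 : 0 < y := by positivity
  have hyx : y ≤ x := one_div_le_one_div_of_le hm (by linarith)
  have hmx : m * x = 1 := by rw [hx]; field_simp
  have hmy : (m + 1) * y = 1 := by rw [hy]; field_simp
  have h1 := block_low hS ha hx0.le n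
  have h2 := block_low hT hb hy0.le n
  have h3 := pow_tangent hx0.le hy0.le n
  set r : ℝ := m - a with hr
  have hr1 : 1 ≤ r := by linarith
  have hby : b * y = 1 + r * y := by
    have : b = (m + 1) + r := by linarith
    rw [this, add_mul, hmy]
  have hax : a * x = 1 - r * x := by
    have : a = m - r := by linarith
    rw [this, sub_mul, hmx]
  have hTby : T - b * y ≤ 0 := by
    rw [hby]
    have h5 : (m + 2) / (m + 1) = 1 + y := by rw [hy]; field_simp; ring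
    rw [h5] at hTb
    nlinarith
  have hpow : y ^ n ≤ x ^ n := pow_le_pow_left₀ hy0.le hyx n
  have h6 : (n + 1) * x ^ n * (T - b * y) ≤ (n + 1) * y ^ n * (T - b * y) := by
    apply mul_le_mul_of_nonpos_right _ hTby
    exact mul_le_mul_of_nonneg_left hpow (by positivity)
  have h7 : a * x ^ (n + 1) = x ^ n - r * x ^ (n + 1) := by
    have : a * x ^ (n + 1) = (a * x) * x ^ n := by ring
    rw [this, hax]; ring
  have h8 : b * y ^ (n + 1) = y ^ n + r * y ^ (n + 1) := by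
    have : b * y ^ (n + 1) = (b * y) * y ^ n := by ring
    rw [this, hby]; ring
  have h9 : (n + 1) * x ^ n * (S - a * x) + (n + 1) * x ^ n * (T - b * y)
      = (n + 1) * x ^ n * (r * (x - y)) := by
    rw [hax, hby]
    have : S = 2 - T := by linarith
    rw [this]; ring
  have h10 : 0 ≤ r * (y ^ (n + 1) - (x ^ (n + 1) + (n + 1) * x ^ n * (y - x))) :=
    mul_nonneg (by linarith) (by linarith)
  nlinarith

/-- Case III: balanced blocks. -/
lemma case_three {n : ℕ} {V η : ℝ} (hD : S ^ (n + 1) / a ^ n + T ^ (n + 1) / b ^ n ≤ D (n + 1))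
    (hS : S = 1 + η) (hT : T = 1 - η) (hη : |η| ≤ V) (hS0 : 0 ≤ S) (hT0 : 0 ≤ T) (hm : 0 < m)
    (hab : (a = m ∧ b = m + 1) ∨ (a = m + 1 ∧ b = m)) :
    (1 / m) ^ n + (1 / (m + 1)) ^ n - (n + 1) * (V * hh m n) ≤ D (n + 1) := by
  have ha : 0 < a := by rcases hab with h | h <;> rw [h.1] <;> linarith
  have hb : 0 < b := by rcases hab with h | h <;> rw [h.2] <;> linarith
  have h1 := block_low hS0 ha (x := 1 / a) (by positivity) n
  have h2 := block_low hT0 hb (x := 1 / b) (by positivity) n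
  have h3 : a * (1 / a) ^ (n + 1) = (1 / a) ^ n := by rw [pow_succ]; field_simp
  have h4 : b * (1 / b) ^ (n + 1) = (1 / b) ^ n := by rw [pow_succ]; field_simp
  have h5 : S - a * (1 / a) = η := by rw [hS]; field_simp; ring
  have h6 : T - b * (1 / b) = -η := by rw [hT]; field_simp; ring
  rw [h3, h5] at h1
  rw [h4, h6] at h2
  have hh0 := hh_nonneg hm n
  have hη1 := (abs_le.1 hη).1
  have hη2 := (abs_le.1 hη).2
  have hn : (0 : ℝ) ≤ (n : ℝ) + 1 := by positivity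
  rcases hab with h | h
  · rw [h.1] at h1 hD
    rw [h.2] at h2 hD
    have h7 : 0 ≤ (n + 1) * ((V + η) * hh m n) := by
      apply mul_nonneg hn (mul_nonneg (by linarith) hh0)
    have h8 : (n + 1) * ((V + η) * hh m n) = (n + 1) * (V * hh m n)
        + ((n + 1) * (1 / m) ^ n * η + (n + 1) * (1 / (m + 1)) ^ n * -η) := by
      unfold hh; ring
    linarith
  · rw [h.1] at h1 hD
    rw [h.2] at h2 hD
    have h7 : 0 ≤ (n + 1) * ((V - η) * hh m n) := by
      apply mul_nonneg hn (mul_nonneg (by linarith) hh0)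
    have h8 : (n + 1) * ((V - η) * hh m n) = (n + 1) * (V * hh m n)
        + ((n + 1) * (1 / (m + 1)) ^ n * η + (n + 1) * (1 / m) ^ n * -η) := by
      unfold hh; ring
    linarith

end cases

lemma hasSum_lin_geom {z : ℝ} (h0 : 0 ≤ z) (h1 : z < 1) :
    HasSum (fun n : ℕ => ((n : ℝ) + 2) * z ^ (n + 1)) (1 / (1 - z) ^ 2 - 1) := by
  have hz : ‖z‖ < 1 := by rw [Real.norm_eq_abs, abs_of_nonneg h0]; exact h1
  have h2 := (hasSum_coe_mul_geometric_of_norm_lt_one hz).add (hasSum_geometric_of_lt_one h0 h1)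
  rw [← hasSum_nat_add_iff' 1] at h2
  have e1 : (fun n : ℕ => ((n : ℝ) + 2) * z ^ (n + 1))
      = fun n : ℕ => ((n + 1 : ℕ) : ℝ) * z ^ (n + 1) + z ^ (n + 1) := by
    ext n; push_cast; ring
  have h1z : 1 - z ≠ 0 := by linarith
  have e2 : 1 / (1 - z) ^ 2 - 1 = z / (1 - z) ^ 2 + (1 - z)⁻¹
      - ∑ i ∈ range 1, (((i : ℕ) : ℝ) * z ^ i + z ^ i) := by
    rw [Finset.sum_range_one]
    simp only [Nat.cast_zero, zero_mul, pow_zero, zero_add]
    field_simp
    ring
  rw [e1, e2]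
  exact h2

lemma hasSum_geom_shift {z : ℝ} (h0 : 0 ≤ z) (h1 : z < 1) (k : ℕ) :
    HasSum (fun n : ℕ => z ^ (n + k)) (z ^ k / (1 - z)) := by
  have := (hasSum_geometric_of_lt_one h0 h1).mul_left (z ^ k)
  have e : (fun n : ℕ => z ^ (n + k)) = fun n => z ^ k * z ^ n := by
    ext n; rw [pow_add]; ring
  rw [e, div_eq_mul_inv]
  exact this

/-- numeric part of case III for `m ≥ 3` -/
lemma numIII_big {q m : ℝ} (h0 : 0 < q) (h1 : q < 1) (hm : 3 ≤ m) {V : ℝ} (hV : 0 ≤ V)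
    {T : ℕ → ℝ} {Ex : ℝ} (hs : HasSum (fun n => W q (n + 1) * T n) Ex)
    (hT0 : 2 * (29 / 100 * V * (4 / (2 * m + 1))) - 2 * (V * hh m 1) ≤ T 0)
    (hT : ∀ n : ℕ, -((n + 2) * (V * hh m (n + 1))) ≤ T n) :
    ∃ c : ℝ, 0 < c ∧ c * V ≤ Ex := by
  have hm0 : 0 < m := by linarith
  set z : ℝ := 1 / m with hz
  have hz0 : 0 ≤ z := by positivity
  have hz1 : z < 1 := by rw [hz, div_lt_one hm0]; linarith
  have hW1 := W_pos h0 h1 1
  have hcoef : ∀ n : ℕ, W q (n + 1) * ((n + 2) * (V * hh m (n + 1)))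
      ≤ V * W q 1 / (m + 1) * ((n + 2) * z ^ (n + 1)) := by
    intro n
    have hn : (0 : ℝ) ≤ n := Nat.cast_nonneg n
    have hW := W_le h0.le h1.le n
    have hWn := (W_pos h0 h1 (n + 1)).le
    have hhl := hh_le hm0 n
    have hh0 := hh_nonneg hm0 (n + 1)
    calc W q (n + 1) * ((n + 2) * (V * hh m (n + 1)))
        = V * (W q (n + 1) * ((n + 2) * hh m (n + 1))) := by ring
      _ ≤ V * (W q 1 * (6 / ((n + 2) * (n + 3))) * ((n + 2) *
            ((n + 1) * z ^ (n + 1) / (m + 1)))) := by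
          apply mul_le_mul_of_nonneg_left _ hV
          apply mul_le_mul hW _ (by positivity) (by positivity)
          exact mul_le_mul_of_nonneg_left hhl (by positivity)
      _ = V * W q 1 / (m + 1) * z ^ (n + 1) * (6 * (n + 1) / (n + 3)) := by
          field_simp
      _ ≤ V * W q 1 / (m + 1) * z ^ (n + 1) * (n + 2) := by
          apply mul_le_mul_of_nonneg_left _ (by positivity)
          rw [div_le_iff₀ (by positivity)]
          rcases n with _ | n
          · norm_num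
          · push_cast
            have : (0 : ℝ) ≤ n := Nat.cast_nonneg n
            nlinarith [mul_nonneg this this]
      _ = _ := by ring
  have hlow := (hasSum_lin_geom hz0 hz1).mul_left (V * W q 1 / (m + 1))
  have h2 := hs.add hlow
  have h3 : ∀ n : ℕ, n ≠ 0 → 0 ≤ W q (n + 1) * T n + V * W q 1 / (m + 1) * ((n + 2) * z ^ (n + 1)) := by
    intro n _
    have h4 := mul_le_mul_of_nonneg_left (hT n) (W_pos h0 h1 (n + 1)).le
    have h5 := hcoef n
    linarith
  have h4 : W q 1 * T 0 + V * W q 1 / (m + 1) * ((0 + 2) * z ^ (0 + 1))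
      ≤ Ex + V * W q 1 / (m + 1) * (1 / (1 - z) ^ 2 - 1) := by
    have := le_hasSum h2 0 (fun n hn => h3 n hn)
    simpa using this
  have h5 : W q 1 * (2 * (29 / 100 * V * (4 / (2 * m + 1))) - 2 * (V * hh m 1)) ≤ W q 1 * T 0 :=
    mul_le_mul_of_nonneg_left hT0 hW1.le
  have h6 : W q 1 * (2 * (V * hh m 1)) ≤ V * W q 1 / (m + 1) * ((0 + 2) * z ^ (0 + 1)) := by
    have := hcoef 0
    simpa using this
  have h7 : W q 1 * V * (232 / 100 / (2 * m + 1) - (1 / (1 - z) ^ 2 - 1) / (m + 1)) ≤ Ex := by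
    have e1 : W q 1 * V * (232 / 100 / (2 * m + 1) - (1 / (1 - z) ^ 2 - 1) / (m + 1))
        = W q 1 * (2 * (29 / 100 * V * (4 / (2 * m + 1))))
          - V * W q 1 / (m + 1) * (1 / (1 - z) ^ 2 - 1) := by ring
    rw [e1]
    linarith
  refine ⟨W q 1 * (232 / 100 / (2 * m + 1) - (1 / (1 - z) ^ 2 - 1) / (m + 1)), ?_, by linarith⟩
  apply mul_pos hW1
  have e2 : (1 / (1 - z) ^ 2 - 1) / (m + 1) = (2 * m - 1) / ((m - 1) ^ 2 * (m + 1)) := by
    rw [hz]
    have : m - 1 ≠ 0 := by linarith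
    field_simp
    ring
  rw [e2, sub_pos, div_lt_div_iff₀ (by nlinarith [sq_nonneg (m - 1), mul_pos (pow_pos (by linarith : 0 < m - 1) 2) (by linarith : 0 < m + 1)]) (by linarith)]
  nlinarith [mul_nonneg (by linarith : 0 ≤ m - 3) (by linarith : 0 ≤ m - 3),
    mul_nonneg (mul_nonneg (by linarith : 0 ≤ m - 3) (by linarith : 0 ≤ m - 3)) (by linarith : 0 ≤ m - 3)]

/-- numeric part of case I for `m ≥ 3` -/
lemma numI_big {q m : ℝ} (h0 : 0 < q) (h1 : q < 1) (hm : 3 ≤ m) {V : ℝ} (hV : 1 / (m + 1) ≤ V)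
    {T : ℕ → ℝ} {Ex : ℝ} (hs : HasSum (fun n => W q (n + 1) * T n) Ex)
    (hT0 : 2 * (29 / 100 * V * (4 / (2 * m + 1))) - 1 / ((2 * m + 1) * m * (m + 1)) ≤ T 0)
    (hT : ∀ n : ℕ, -(hh m (n + 1)) ≤ T n) : 0 < Ex := by
  have hm0 : 0 < m := by linarith
  set z : ℝ := 1 / m with hz
  have hz0 : 0 ≤ z := by positivity
  have hz1 : z < 1 := by rw [hz, div_lt_one hm0]; linarith
  have hW1 := W_pos h0 h1 1
  have hcoef : ∀ n : ℕ, W q (n + 1) * hh m (n + 1) ≤ W q 1 / (m + 1) * z ^ (n + 1) := by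
    intro n
    have hn : (0 : ℝ) ≤ n := Nat.cast_nonneg n
    have hW := W_le h0.le h1.le n
    have hWn := (W_pos h0 h1 (n + 1)).le
    have hhl := hh_le hm0 n
    have hh0 := hh_nonneg hm0 (n + 1)
    calc W q (n + 1) * hh m (n + 1)
        ≤ (W q 1 * (6 / ((n + 2) * (n + 3)))) * ((n + 1) * z ^ (n + 1) / (m + 1)) := by
          apply mul_le_mul hW hhl hh0 (by positivity)
      _ = W q 1 / (m + 1) * z ^ (n + 1) * (6 * (n + 1) / ((n + 2) * (n + 3))) := by
          field_simp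
      _ ≤ W q 1 / (m + 1) * z ^ (n + 1) * 1 := by
          apply mul_le_mul_of_nonneg_left _ (by positivity)
          rw [div_le_one (by positivity)]
          rcases n with _ | n
          · norm_num
          · push_cast
            have : (0 : ℝ) ≤ n := Nat.cast_nonneg n
            nlinarith [mul_nonneg this this]
      _ = _ := by ring
  have hlow := (hasSum_geom_shift hz0 hz1 1).mul_left (W q 1 / (m + 1))
  have h2 := hs.add hlow
  have h3 : ∀ n : ℕ, n ≠ 0 → 0 ≤ W q (n + 1) * T n + W q 1 / (m + 1) * z ^ (n + 1) := by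
    intro n _
    have h4 := mul_le_mul_of_nonneg_left (hT n) (W_pos h0 h1 (n + 1)).le
    have h5 := hcoef n
    linarith
  have h4 : W q 1 * T 0 + W q 1 / (m + 1) * z ^ (0 + 1)
      ≤ Ex + W q 1 / (m + 1) * (z ^ 1 / (1 - z)) := by
    have := le_hasSum h2 0 (fun n hn => h3 n hn)
    simpa using this
  have h5 : W q 1 * (2 * (29 / 100 * V * (4 / (2 * m + 1))) - 1 / ((2 * m + 1) * m * (m + 1)))
      ≤ W q 1 * T 0 := mul_le_mul_of_nonneg_left hT0 hW1.le
  simp only [zero_add, pow_one] at h4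
  have h7 : z / (1 - z) = 1 / (m - 1) := by
    rw [hz]
    have : m - 1 ≠ 0 := by linarith
    field_simp
  rw [h7] at h4
  have h8 : W q 1 * (2 * (29 / 100 * (1 / (m + 1)) * (4 / (2 * m + 1)))
      - 1 / ((2 * m + 1) * m * (m + 1)) + z / (m + 1) - 1 / (m - 1) / (m + 1)) ≤ Ex := by
    have e1 : W q 1 * (2 * (29 / 100 * (1 / (m + 1)) * (4 / (2 * m + 1)))
      - 1 / ((2 * m + 1) * m * (m + 1)) + z / (m + 1) - 1 / (m - 1) / (m + 1))
      = W q 1 * (2 * (29 / 100 * (1 / (m + 1)) * (4 / (2 * m + 1)))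
      - 1 / ((2 * m + 1) * m * (m + 1))) + W q 1 / (m + 1) * z
      - W q 1 / (m + 1) * (1 / (m - 1)) := by ring
    have e2 : W q 1 * (2 * (29 / 100 * (1 / (m + 1)) * (4 / (2 * m + 1)))
        - 1 / ((2 * m + 1) * m * (m + 1)))
        ≤ W q 1 * (2 * (29 / 100 * V * (4 / (2 * m + 1))) - 1 / ((2 * m + 1) * m * (m + 1))) := by
      apply mul_le_mul_of_nonneg_left _ hW1.le
      have : 1 / (m + 1) * (4 / (2 * m + 1)) ≤ V * (4 / (2 * m + 1)) :=
        mul_le_mul_of_nonneg_right hV (by positivity)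
      linarith
    rw [e1]
    linarith
  refine lt_of_lt_of_le (mul_pos hW1 ?_) h8
  have h9 : 2 * (29 / 100 * (1 / (m + 1)) * (4 / (2 * m + 1)))
      - 1 / ((2 * m + 1) * m * (m + 1)) + z / (m + 1) - 1 / (m - 1) / (m + 1)
      = (232 / 100 * m * (m - 1) - (m - 1) - (2 * m + 1)) / ((m + 1) * (2 * m + 1) * m * (m - 1)) := by
    rw [hz]
    have : m - 1 ≠ 0 := by linarith
    field_simp
    ring
  rw [h9]
  apply div_pos
  · nlinarith
  · have : 0 < m - 1 := by linarith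
    positivity

lemma W_two_ge {q : ℝ} (h0 : 0 < q) (h1 : q < 1) : W q 1 / 4 ≤ W q 2 := by
  have hW1 := W_pos h0 h1 1
  rw [W_succ q 1]
  push_cast
  have : 1 / 4 ≤ (1 + 1 - q) / (1 + 3) := by linarith
  nlinarith

lemma W_two_le {q : ℝ} (h0 : 0 < q) (h1 : q < 1) : W q 2 ≤ W q 1 / 2 := by
  have hW1 := W_pos h0 h1 1
  rw [W_succ q 1]
  push_cast
  have : (1 + 1 - q) / (1 + 3) ≤ 1 / 2 := by linarith
  nlinarith

lemma W_three_le {q : ℝ} (h0 : 0 < q) (h1 : q < 1) : W q 3 ≤ W q 2 * (6 / 10) := by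
  have hW2 := W_pos h0 h1 2
  rw [W_succ q 2]
  push_cast
  have : (2 + 1 - q) / (2 + 3) ≤ 6 / 10 := by linarith
  nlinarith

/-- numeric part of case III for `m = 2` -/
lemma numIII_two {q : ℝ} (h0 : 0 < q) (h1 : q < 1) {V : ℝ} (hV : 0 ≤ V)
    {T : ℕ → ℝ} {Ex : ℝ} (hs : HasSum (fun n => W q (n + 1) * T n) Ex)
    (hT0 : 2 * (29 / 100 * V * (4 / 5)) - 2 * (V * hh 2 1) ≤ T 0)
    (hT1 : 3 * (1 / 2 * V * (8 / 25)) - 3 * (V * hh 2 2) ≤ T 1)
    (hT2 : 4 * (64 / 100 * V * (16 / 125)) - 4 * (V * hh 2 3) ≤ T 2)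
    (hT : ∀ n : ℕ, -((n + 2) * (V * hh 2 (n + 1))) ≤ T n) :
    ∃ c : ℝ, 0 < c ∧ c * V ≤ Ex := by
  have hW1 := W_pos h0 h1 1
  have hW2 := W_pos h0 h1 2
  have hW3 := W_pos h0 h1 3
  have hcoef : ∀ n : ℕ, W q (n + 3 + 1) * (((n + 3 : ℕ) + 2) * (V * hh 2 (n + 3 + 1)))
      ≤ V * W q 1 * (1 / 2) ^ (n + 4) := by
    intro n
    have hn : (0 : ℝ) ≤ n := Nat.cast_nonneg n
    have hW := W_le h0.le h1.le (n + 3)
    have hWn := (W_pos h0 h1 (n + 3 + 1)).le
    have hhl := hh_le' (m := 2) (by norm_num) (n + 3 + 1)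
    have hh0 := hh_nonneg (m := 2) (by norm_num) (n + 3 + 1)
    push_cast at hW ⊢
    calc W q (n + 3 + 1) * ((n + 3 + 2) * (V * hh 2 (n + 3 + 1)))
        = V * (W q (n + 3 + 1) * ((n + 3 + 2) * hh 2 (n + 3 + 1))) := by ring
      _ ≤ V * (W q 1 * (6 / ((n + 3 + 2) * (n + 3 + 3))) * ((n + 3 + 2) * (1 / 2) ^ (n + 3 + 1))) := by
          apply mul_le_mul_of_nonneg_left _ hV
          apply mul_le_mul hW _ (by positivity) (by positivity)
          exact mul_le_mul_of_nonneg_left hhl (by positivity)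
      _ = V * W q 1 * (1 / 2) ^ (n + 4) * (6 / (n + 3 + 3)) := by
          field_simp
      _ ≤ V * W q 1 * (1 / 2) ^ (n + 4) * 1 := by
          apply mul_le_mul_of_nonneg_left _ (by positivity)
          rw [div_le_one (by positivity)]
          linarith
      _ = _ := by ring
  have hs3 := (hasSum_nat_add_iff' 3).2 hs
  have hlow := (hasSum_geom_shift (z := 1 / 2) (by norm_num) (by norm_num) 4).mul_left (V * W q 1)
  have h2 := (hs3.add hlow).nonneg (fun n => ?_)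
  swap
  · have h4 := mul_le_mul_of_nonneg_left (hT (n + 3)) (W_pos h0 h1 (n + 3 + 1)).le
    have h5 := hcoef n
    linarith
  rw [Finset.sum_range_succ, Finset.sum_range_succ, Finset.sum_range_one] at h2
  have k1 : hh 2 1 = 1 / 6 := by unfold hh; norm_num
  have k2 : hh 2 2 = 5 / 36 := by unfold hh; norm_num
  have k3 : hh 2 3 = 19 / 216 := by unfold hh; norm_num
  rw [k1] at hT0
  rw [k2] at hT1
  rw [k3] at hT2
  have a0 := mul_le_mul_of_nonneg_left hT0 hW1.le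
  have a1 := mul_le_mul_of_nonneg_left hT1 hW2.le
  have a2 := mul_le_mul_of_nonneg_left hT2 hW3.le
  have b1 := W_two_ge h0 h1
  have b2 := W_three_le h0 h1
  have hVW1 : 0 ≤ V * W q 1 := by positivity
  have hVW2 : 0 ≤ V * (W q 2 - W q 1 / 4) := mul_nonneg hV (by linarith)
  have hVW3 : 0 ≤ V * (W q 2 * (6 / 10) - W q 3) := mul_nonneg hV (by linarith)
  refine ⟨W q 1 / 1000, by positivity, ?_⟩
  simp only [zero_add, Nat.reduceAdd] at h2
  have e : (1 / 2 : ℝ) ^ 4 / (1 - 1 / 2) = 1 / 8 := by norm_num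
  rw [e] at h2
  nlinarith

/-- numeric part of case I for `m = 2` -/
lemma numI_two {q : ℝ} (h0 : 0 < q) (h1 : q < 1) {V : ℝ} (hV : 1 / 3 ≤ V)
    {T : ℕ → ℝ} {Ex : ℝ} (hs : HasSum (fun n => W q (n + 1) * T n) Ex)
    (hT0 : 2 * (29 / 100 * V * (4 / 5)) - 1 / 30 ≤ T 0)
    (hT1 : -(42 / 1000) ≤ T 1)
    (hT : ∀ n : ℕ, -(hh 2 (n + 1)) ≤ T n) : 0 < Ex := by
  have hW1 := W_pos h0 h1 1
  have hW2 := W_pos h0 h1 2
  have hcoef : ∀ n : ℕ, W q (n + 2 + 1) * hh 2 (n + 2 + 1)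
      ≤ 3 / 10 * W q 1 * (1 / 2) ^ (n + 3) := by
    intro n
    have hn : (0 : ℝ) ≤ n := Nat.cast_nonneg n
    have hW := W_le h0.le h1.le (n + 2)
    have hWn := (W_pos h0 h1 (n + 2 + 1)).le
    have hhl := hh_le' (m := 2) (by norm_num) (n + 2 + 1)
    have hh0 := hh_nonneg (m := 2) (by norm_num) (n + 2 + 1)
    push_cast at hW
    calc W q (n + 2 + 1) * hh 2 (n + 2 + 1)
        ≤ W q 1 * (6 / ((n + 2 + 2) * (n + 2 + 3))) * (1 / 2) ^ (n + 2 + 1) := by
          apply mul_le_mul hW hhl hh0 (by positivity)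
      _ = W q 1 * (1 / 2) ^ (n + 3) * (6 / ((n + 2 + 2) * (n + 2 + 3))) := by ring
      _ ≤ W q 1 * (1 / 2) ^ (n + 3) * (3 / 10) := by
          apply mul_le_mul_of_nonneg_left _ (by positivity)
          rw [div_le_iff₀ (by positivity)]
          nlinarith
      _ = _ := by ring
  have hs3 := (hasSum_nat_add_iff' 2).2 hs
  have hlow := (hasSum_geom_shift (z := 1 / 2) (by norm_num) (by norm_num) 3).mul_left
    (3 / 10 * W q 1)
  have h2 := (hs3.add hlow).nonneg (fun n => ?_)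
  swap
  · have h4 := mul_le_mul_of_nonneg_left (hT (n + 2)) (W_pos h0 h1 (n + 2 + 1)).le
    have h5 := hcoef n
    linarith
  rw [Finset.sum_range_succ, Finset.sum_range_one] at h2
  have a0 := mul_le_mul_of_nonneg_left hT0 hW1.le
  have a1 := mul_le_mul_of_nonneg_left hT1 hW2.le
  have b2 := W_two_le h0 h1
  simp only [zero_add, Nat.reduceAdd] at h2
  have e : (1 / 2 : ℝ) ^ 3 / (1 - 1 / 2) = 1 / 4 := by norm_num
  rw [e] at h2
  nlinarith [mul_le_mul_of_nonneg_left hV hW1.le]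

end Pool.Agent.RieszSmall
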