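import Pool.Agent.RieszSmall.Shape

set_option autoImplicit false

open Real Finset

namespace Pool.Agent.RieszSmall

section

variable {ι : Type*} [Fintype ι] [DecidableEq ι] {V : Type*} [NormedAddCommGroup V]
  [InnerProductSpace ℝ V]

omit [DecidableEq ι] in
lemma exists_dep [FiniteDimensional ℝ V] (x : ι → V)
    (h : Module.finrank ℝ V + 2 ≤ Fintype.card ι) : ∃ c s : ι → ℝ, Dep x c s := by
  let T : EuclideanSpace ℝ ι →ₗ[ℝ] V :=
    (Fintype.linearCombination ℝ x).comp (WithLp.linearEquiv 2 ℝ (ι → ℝ)).toLinearMap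
  have hT : ∀ c : EuclideanSpace ℝ ι, T c = ∑ i, c i • x i := by
    intro c
    simp [T, Fintype.linearCombination_apply]
  have h1 := LinearMap.finrank_range_add_finrank_ker T
  rw [finrank_euclideanSpace] at h1
  have h2 : Module.finrank ℝ (LinearMap.range T) ≤ Module.finrank ℝ V := Submodule.finrank_le _
  have h3 : 2 ≤ Module.finrank ℝ (LinearMap.ker T) := by omega
  let b := stdOrthonormalBasis ℝ (LinearMap.ker T)
  let c : EuclideanSpace ℝ ι := b ⟨0, by omega⟩
  let s : EuclideanSpace ℝ ι := b ⟨1, by omega⟩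
  have hb := b.orthonormal
  have hcc : ‖c‖ = 1 := hb.1 _
  have hss : ‖s‖ = 1 := hb.1 _
  have hcs : (inner ℝ c s : ℝ) = 0 := by
    have := hb.2 (i := ⟨0, by omega⟩) (j := ⟨1, by omega⟩) (by simp)
    exact this
  have hinner : ∀ u w : EuclideanSpace ℝ ι, (inner ℝ u w : ℝ) = ∑ i, u i * w i := by
    intro u w
    rw [PiLp.inner_apply]
    refine Finset.sum_congr rfl (fun i _ => ?_)
    rw [RCLike.inner_apply]
    simp [mul_comm]
  refine ⟨c, s, ?_, ?_, ?_, ?_, ?_⟩
  · have := hinner c c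
    rw [real_inner_self_eq_norm_sq, hcc] at this
    rw [Finset.sum_congr rfl (fun i _ => pow_two (c i)), ← this]; norm_num
  · have := hinner s s
    rw [real_inner_self_eq_norm_sq, hss] at this
    rw [Finset.sum_congr rfl (fun i _ => pow_two (s i)), ← this]; norm_num
  · rw [← hinner, hcs]
  · rw [← hT]
    exact (b ⟨0, by omega⟩).2
  · rw [← hT]
    exact (b ⟨1, by omega⟩).2

variable {x : ι → V} {c s : ι → ℝ}

lemma Dep.one_lower (h : Dep x c s) (hx : ∀ i, ‖x i‖ = 1)
    (hlt : ∀ i j, i ≠ j → (inner ℝ (x i) (x j) : ℝ) < 1) :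
    (Fintype.card ι : ℝ) ^ 2 - 2 * Fintype.card ι + 2 ≤ En 1 x ∧
    (En 1 x = (Fintype.card ι : ℝ) ^ 2 - 2 * Fintype.card ι + 2 →
      ∑ i, x i = 0 ∧ ∑ i, ∑ j, PP c s i j ^ 2 * inner ℝ (x i) (x j) = 0 ∧
      ∀ i j, i ≠ j → (1 - PP c s i j) * (1 - inner ℝ (x i) (x j)) = 1) := by
  have hf := h.frame hx
  have h1 : Bc 1 c s = (Fintype.card ι : ℝ) ^ 2 - 2 * Fintype.card ι + 2 := by
    have h2 := hf.hasSum_Bc 1
    have h3 : HasSum (fun n : ℕ => W 1 n * (DD c s (n + 1) + (n + 1) * Lo c s n))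
        (W 1 0 * (DD c s (0 + 1) + ((0 : ℕ) + 1) * Lo c s 0)) :=
      hasSum_single 0 (fun n hn => by
        obtain ⟨k, rfl⟩ := Nat.exists_eq_succ_of_ne_zero hn
        rw [Nat.succ_eq_add_one, W_one_succ, zero_mul])
    have h4 := h2.unique h3
    rw [W_zero, hf.Lo_zero, zero_add, hf.DD_one] at h4
    norm_num at h4
    linarith
  have h5 : Yg 1 x c s - ‖∑ i, x i‖ ^ 2 = ∑ i, ∑ j, PP c s i j ^ 2 * inner ℝ (x i) (x j) := by
    have h2 := h.Yg_hasSum hx 1
    have h3 : HasSum (fun n : ℕ => W 1 n * ∑ i, ∑ j, PP c s i j ^ (n + 2) * inner ℝ (x i) (x j))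
        (W 1 0 * ∑ i, ∑ j, PP c s i j ^ (0 + 2) * inner ℝ (x i) (x j)) :=
      hasSum_single 0 (fun n hn => by
        obtain ⟨k, rfl⟩ := Nat.exists_eq_succ_of_ne_zero hn
        rw [Nat.succ_eq_add_one, W_one_succ, zero_mul])
    have h4 := h2.unique h3
    rw [W_zero] at h4
    norm_num at h4
    exact h4
  have h6 := schur_nonneg x c s 2
  have h7 : 0 ≤ ‖∑ i, x i‖ ^ 2 := sq_nonneg _
  obtain ⟨h8, h9⟩ := h.En_ge hx hlt (q := 1) one_pos
  rw [one_mul] at h8 h9
  refine ⟨by linarith, fun hE => ?_⟩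
  have h10 : ‖∑ i, x i‖ ^ 2 = 0 := by linarith
  refine ⟨?_, by linarith, h9 (by linarith)⟩
  exact norm_eq_zero.1 (pow_eq_zero_iff (two_ne_zero) |>.1 h10)

/-- The equality case for `q = 1`. -/
lemma one_equality [FiniteDimensional ℝ V] (hcard : Module.finrank ℝ V + 2 ≤ Fintype.card ι)
    (hx : ∀ i, ‖x i‖ = 1) (hlt : ∀ i j, i ≠ j → (inner ℝ (x i) (x j) : ℝ) < 1)
    (hE : En 1 x = (Fintype.card ι : ℝ) ^ 2 - 2 * Fintype.card ι + 2) :
    ∃ P : Finset ι, 1 < P.card ∧ 1 < Pᶜ.card ∧ OrthSimplices P x := by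
  obtain ⟨c0, s0, hdep⟩ := exists_dep x hcard
  have hsum := ((hdep.one_lower hx hlt).2 hE).1
  set N : ℝ := (Fintype.card ι : ℝ) with hN
  have hNpos : 0 < N := by
    rw [hN]
    have : 0 < Fintype.card ι := by omega
    exact_mod_cast this
  set K : (ι → ℝ) → Prop := fun v => ∑ i, v i ^ 2 = 1 ∧ ∑ i, v i = 0 ∧ ∑ i, v i • x i = 0 with hK
  have hsqrt : (1 / √N) ^ 2 = 1 / N := by
    rw [div_pow, Real.sq_sqrt hNpos.le, one_pow]
  -- a `K`-vector gives a dependency
  have hKdep : ∀ v, K v → Dep x (fun _ => 1 / √N) v := by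
    intro v hv
    refine ⟨?_, hv.1, ?_, ?_, hv.2.2⟩
    · rw [Finset.sum_const, Finset.card_univ, nsmul_eq_mul, hsqrt, ← hN]; field_simp
    · rw [← Finset.mul_sum, hv.2.1, mul_zero]
    · rw [← Finset.smul_sum, hsum, smul_zero]
  have hPP : ∀ (v : ι → ℝ) i j, PP (fun _ => 1 / √N) v i j = 1 / N + v i * v j := by
    intro v i j
    unfold PP
    rw [← hsqrt]; ring
  -- products are determined
  have hprod : ∀ v w, K v → K w → ∀ i j, i ≠ j → v i * v j = w i * w j := by
    intro v w hv hw i j hij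
    have h1 := (((hKdep v hv).one_lower hx hlt).2 hE).2.2 i j hij
    have h2 := (((hKdep w hw).one_lower hx hlt).2 hE).2.2 i j hij
    rw [hPP] at h1 h2
    have h3 : (1 - inner ℝ (x i) (x j) : ℝ) ≠ 0 := by
      have := hlt i j hij
      linarith
    have h4 := mul_right_cancel₀ h3 (h1.trans h2.symm)
    linarith
  -- existence of a `K`-vector
  obtain ⟨v, hv⟩ : ∃ v, K v := by
    set σc := ∑ i, c0 i with hσc
    set σs := ∑ i, s0 i with hσs
    by_cases hzero : σc ^ 2 + σs ^ 2 = 0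
    · have hc0 : σc = 0 := by nlinarith [sq_nonneg σc, sq_nonneg σs]
      exact ⟨c0, hdep.cc, hc0, hdep.cx⟩
    · have hpos : 0 < σc ^ 2 + σs ^ 2 := lt_of_le_of_ne (by positivity) (Ne.symm hzero)
      set R := √(σc ^ 2 + σs ^ 2) with hR
      have hR0 : 0 < R := Real.sqrt_pos.2 hpos
      have hR2 : R ^ 2 = σc ^ 2 + σs ^ 2 := Real.sq_sqrt hpos.le
      refine ⟨fun i => σs / R * c0 i - σc / R * s0 i, ?_, ?_, ?_⟩
      · have e : ∀ i, (σs / R * c0 i - σc / R * s0 i) ^ 2
            = (σs / R) ^ 2 * c0 i ^ 2 + (σc / R) ^ 2 * s0 i ^ 2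
              - 2 * (σs / R) * (σc / R) * (c0 i * s0 i) := by intro i; ring
        simp only [e, Finset.sum_sub_distrib, Finset.sum_add_distrib, ← Finset.mul_sum,
          hdep.cc, hdep.ss, hdep.cs]
        field_simp
        linarith
      · rw [Finset.sum_sub_distrib, ← Finset.mul_sum, ← Finset.mul_sum, ← hσc, ← hσs]
        ring
      · have e : ∀ i, (σs / R * c0 i - σc / R * s0 i) • x i
            = (σs / R) • (c0 i • x i) - (σc / R) • (s0 i • x i) := by
          intro i; rw [sub_smul, mul_smul, mul_smul]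
        simp only [e, Finset.sum_sub_distrib, ← Finset.smul_sum, hdep.cx, hdep.sx]
        simp
  obtain ⟨hv1, hv2, hv3⟩ := id hv
  have hvdep := hKdep v hv
  have hv4 : ∑ i, (v i ^ 2) • x i = 0 := by
    have h1 := ((hvdep.one_lower hx hlt).2 hE).2.1
    rw [schur] at h1
    have h2 := (Finset.sum_eq_zero_iff_of_nonneg (fun l _ => by positivity)).1 h1 0 (by simp)
    simp only [Nat.choose_zero_right, Nat.cast_one, one_mul, pow_zero, Nat.sub_zero] at h2
    exact norm_eq_zero.1 (pow_eq_zero_iff (two_ne_zero) |>.1 h2)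
  set β : ℝ := ∑ i, v i ^ 3 with hβ
  set z : ι → ℝ := fun i => v i ^ 2 - 1 / N - β * v i with hz
  have hz1 : ∑ i, z i = 0 := by
    simp only [hz, Finset.sum_sub_distrib, ← Finset.mul_sum, hv1, hv2, Finset.sum_const,
      Finset.card_univ, nsmul_eq_mul, ← hN]
    field_simp
    ring
  have hz2 : ∑ i, z i * v i = 0 := by
    have e : ∀ i, z i * v i = v i ^ 3 - 1 / N * v i - β * v i ^ 2 := by
      intro i; simp only [hz]; ring
    simp only [e, Finset.sum_sub_distrib, ← Finset.mul_sum, hv1, hv2, ← hβ]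
    ring
  have hz3 : ∑ i, z i • x i = 0 := by
    have e : ∀ i, z i • x i = (v i ^ 2) • x i - (1 / N) • x i - β • (v i • x i) := by
      intro i; simp only [hz]; rw [sub_smul, sub_smul, mul_smul]
    simp only [e, Finset.sum_sub_distrib, ← Finset.smul_sum, hv4, hsum, hv3]
    simp
  have hzz : ∀ i, z i = 0 := by
    by_contra hcon
    push Not at hcon
    obtain ⟨i0, hi0⟩ := hcon
    set ζ : ℝ := ∑ i, z i ^ 2 with hζ
    have hζpos : 0 < ζ := by
      have h1 : z i0 ^ 2 ≤ ζ := Finset.single_le_sum (f := fun i => z i ^ 2)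
        (fun i _ => sq_nonneg _) (Finset.mem_univ i0)
      have h2 : 0 < z i0 ^ 2 := by positivity
      linarith
    have hζs : (1 / √ζ) ^ 2 * ζ = 1 := by
      rw [div_pow, Real.sq_sqrt hζpos.le, one_pow]; field_simp
    have hs2 : (1 / √2 : ℝ) ^ 2 = 1 / 2 := by
      rw [div_pow, Real.sq_sqrt (by norm_num), one_pow]
    have hw : K (fun i => 1 / √ζ * z i) := by
      refine ⟨?_, ?_, ?_⟩
      · simp only [mul_pow, ← Finset.mul_sum, ← hζ]; exact hζs
      · rw [← Finset.mul_sum, hz1, mul_zero]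
      · simp only [mul_smul, ← Finset.smul_sum, hz3, smul_zero]
    obtain ⟨hw1, hw2, hw3⟩ := id hw
    have hvw : ∑ i, v i * (1 / √ζ * z i) = 0 := by
      have e : ∀ i, v i * (1 / √ζ * z i) = 1 / √ζ * (z i * v i) := by intro i; ring
      simp only [e, ← Finset.mul_sum, hz2, mul_zero]
    have hu : K (fun i => 1 / √2 * (v i + 1 / √ζ * z i)) := by
      refine ⟨?_, ?_, ?_⟩
      · have e : ∀ i, (1 / √2 * (v i + 1 / √ζ * z i)) ^ 2
            = 1 / 2 * v i ^ 2 + 1 / 2 * (1 / √ζ * z i) ^ 2 + v i * (1 / √ζ * z i) := by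
          intro i; rw [mul_pow, hs2]; ring
        simp only [e, Finset.sum_add_distrib, ← Finset.mul_sum (s := Finset.univ) (a := (1 / 2 : ℝ)),
          hv1, hw1, hvw]
        norm_num
      · rw [← Finset.mul_sum, Finset.sum_add_distrib, hv2, hw2]; ring
      · have e : ∀ i, (1 / √2 * (v i + 1 / √ζ * z i)) • x i
            = (1 / √2 : ℝ) • (v i • x i + (1 / √ζ * z i) • x i) := by
          intro i; rw [mul_smul, add_smul]
        simp only [e, ← Finset.smul_sum, Finset.sum_add_distrib, hv3, hw3]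
        simp
    have hzero : ∀ i j, i ≠ j → v i * v j = 0 := by
      intro i j hij
      have h1 := hprod v _ hv hw i j hij
      have h2 := hprod v _ hv hu i j hij
      beta_reduce at h1 h2
      set a' := 1 / √ζ * z i
      set b' := 1 / √ζ * z j
      have h3 : 1 / √2 * (v i + a') * (1 / √2 * (v j + b')) = 1 / 2 * ((v i + a') * (v j + b')) := by
        rw [← hs2]; ring
      rw [h3] at h2
      have h4 : v i * b' + a' * v j = 0 := by linarith
      have h5 : (v i ^ 2 + a' ^ 2) * (v j ^ 2 + b' ^ 2) = 0 := by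
        have : (v i ^ 2 + a' ^ 2) * (v j ^ 2 + b' ^ 2)
            = (v i * v j - a' * b') ^ 2 + (v i * b' + a' * v j) ^ 2 := by ring
        rw [this, h4, h1]; ring
      rcases mul_eq_zero.1 h5 with h6 | h6
      · have : v i ^ 2 = 0 := by nlinarith [sq_nonneg (v i), sq_nonneg a']
        rw [pow_eq_zero_iff (two_ne_zero) |>.1 this, zero_mul]
      · have : v j ^ 2 = 0 := by nlinarith [sq_nonneg (v j), sq_nonneg b']
        rw [pow_eq_zero_iff (two_ne_zero) |>.1 this, mul_zero]
    have h7 : (∑ i, v i) * (∑ j, v j) = ∑ i, v i ^ 2 := by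
      rw [Finset.sum_mul_sum]
      refine Finset.sum_congr rfl (fun i _ => ?_)
      rw [← Finset.add_sum_erase _ _ (Finset.mem_univ i), Finset.sum_eq_zero (fun j hj =>
        hzero i j (Finset.ne_of_mem_erase hj).symm)]
      ring
    rw [hv2, hv1] at h7
    norm_num at h7
  -- the vector `v` takes two values
  have hquad : ∀ i, v i ^ 2 = 1 / N + β * v i := by
    intro i
    have := hzz i
    simp only [hz] at this
    linarith
  have hN1 : 0 < 1 / N := by positivity
  have hne0 : ∀ i, v i ≠ 0 := by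
    intro i h0
    have := hquad i
    rw [h0] at this
    norm_num at this
    linarith
  have hcross : ∀ i j, v i ≠ v j → v i * v j = -(1 / N) := by
    intro i j hij
    have h1 := hquad i
    have h2 := hquad j
    have h3 : v i + v j = β := by
      have : (v i - v j) * (v i + v j) = (v i - v j) * β := by nlinarith
      exact mul_left_cancel₀ (sub_ne_zero.2 hij) this
    rw [← h3] at h1
    linarith
  have hf := hvdep.frame hx
  set cc : ι → ℝ := fun _ => 1 / √N with hcc
  have hdlv : ∀ i, dl cc v i = 1 / N + v i ^ 2 := by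
    intro i; rw [← PP_self, hPP]; ring
  have hdlpos : ∀ i, 0 < dl cc v i := by
    intro i; rw [hdlv]; have := sq_nonneg (v i); linarith
  have hcl : ∀ i j, PP cc v i j = 0 ∨ (PP cc v i j = dl cc v i ∧ PP cc v i j = dl cc v j) := by
    intro i j
    by_cases hij : v i = v j
    · right
      rw [hPP, hdlv, hdlv, hij]
      constructor <;> ring
    · left
      rw [hPP, hcross i j hij]; ring
  obtain ⟨i, hi⟩ : ∃ i, 0 < v i := by
    by_contra hcon
    push Not at hcon
    have h1 := (Finset.sum_eq_zero_iff_of_nonpos (fun i _ => hcon i)).1 hv2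
    have h2 : ∑ i, v i ^ 2 = 0 := Finset.sum_eq_zero (fun i hi => by rw [h1 i hi]; norm_num)
    rw [hv1] at h2
    norm_num at h2
  obtain ⟨k, hk⟩ : ∃ k, v k < 0 := by
    by_contra hcon
    push Not at hcon
    have h1 := (Finset.sum_eq_zero_iff_of_nonneg (fun i _ => hcon i)).1 hv2
    have h2 : ∑ i, v i ^ 2 = 0 := Finset.sum_eq_zero (fun i hi => by rw [h1 i hi]; norm_num)
    rw [hv1] at h2
    norm_num at h2
  have hmem : ∀ a b, b ∈ clu cc v a ↔ v a = v b := by
    intro a b
    rw [mem_clu]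
    constructor
    · intro h1
      by_contra hne
      apply h1
      rw [hPP, hcross a b hne]; ring
    · intro h1
      rw [hPP, h1]
      have := mul_self_nonneg (v b)
      linarith
  have hcomp : (clu cc v i)ᶜ = clu cc v k := by
    ext b
    rw [Finset.mem_compl, hmem, hmem]
    constructor
    · intro h1
      by_contra h2
      have h3 := hcross i b h1
      have h4 := hcross k b h2
      have h5 : (v i - v k) * v b = 0 := by linarith
      rcases mul_eq_zero.1 h5 with h6 | h6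
      · linarith
      · exact hne0 b h6
    · intro h1 h2
      linarith
  obtain ⟨hia, hia1⟩ := hf.clu_card hcl (hdlpos i)
  obtain ⟨hka, hka1⟩ := hf.clu_card hcl (hdlpos k)
  have hsame : ∀ a b, v a = v b → PP cc v a b = dl cc v a := by
    intro a b hab
    rw [hPP, hdlv, hab]; ring
  refine ⟨clu cc v i, hia1, by rw [hcomp]; exact hka1, orth_of_blocks (c := cc) (s := v) ?_
    ((hvdep.one_lower hx hlt).2 hE).2.2⟩
  refine ⟨?_, ?_, ?_, hia1, by rw [hcomp]; exact hka1⟩
  · intro a ha b hb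
    rw [hmem] at ha hb
    rw [← hia, hsame a b (ha.symm.trans hb), hdlv, hdlv, ← ha]
  · rw [hcomp]
    intro a ha b hb
    rw [hmem] at ha hb
    rw [← hka, hsame a b (ha.symm.trans hb), hdlv, hdlv, ← ha]
  · intro a ha b hb
    rw [hmem] at ha
    rw [Finset.mem_compl, hmem] at hb
    rw [hPP, hcross a b (fun h => hb (ha.trans h))]
    ring

end

end Pool.Agent.RieszSmall
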