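import Mathlib

set_option autoImplicit false

open Real Finset

namespace Pool.Agent.RieszSmall

/-- The coefficients of `(1 - x)^(q+1) = 1 - (1+q) x + ∑ W n x^(n+2)`. -/
noncomputable def W (q : ℝ) : ℕ → ℝ
  | 0 => q * (1 + q) / 2
  | n + 1 => W q n * ((n + 1 - q) / (n + 3))

lemma W_zero (q : ℝ) : W q 0 = q * (1 + q) / 2 := rfl

lemma W_succ (q : ℝ) (n : ℕ) : W q (n + 1) = W q n * ((n + 1 - q) / (n + 3)) := rfl

lemma W_nonneg {q : ℝ} (h0 : 0 ≤ q) (h1 : q ≤ 1) (n : ℕ) : 0 ≤ W q n := by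
  induction n with
  | zero => rw [W_zero]; positivity
  | succ n ih =>
    rw [W_succ]
    have : (0 : ℝ) ≤ n := Nat.cast_nonneg n
    exact mul_nonneg ih (div_nonneg (by linarith) (by linarith))

lemma W_pos {q : ℝ} (h0 : 0 < q) (h1 : q < 1) (n : ℕ) : 0 < W q n := by
  induction n with
  | zero => rw [W_zero]; positivity
  | succ n ih =>
    rw [W_succ]
    have : (0 : ℝ) ≤ n := Nat.cast_nonneg n
    exact mul_pos ih (div_pos (by linarith) (by linarith))

lemma W_one_succ (n : ℕ) : W 1 (n + 1) = 0 := by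
  induction n with
  | zero => rw [W_succ]; norm_num
  | succ n ih => rw [W_succ, ih, zero_mul]

lemma W_eq_choose (q : ℝ) (n : ℕ) : W q n = (-1) ^ n * Ring.choose (q + 1) (n + 2) := by
  induction n with
  | zero =>
    rw [W_zero, Ring.choose_eq_smul]
    simp only [pow_zero, one_mul, zero_add]
    rw [descPochhammer_succ_right, descPochhammer_one]
    simp [Polynomial.smeval_mul, Polynomial.smeval_sub, Polynomial.smeval_X, Nat.factorial]
    ring
  | succ n ih =>
    rw [W_succ, ih]
    rw [Ring.choose_eq_smul, Ring.choose_eq_smul]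
    have h : (descPochhammer ℤ (n + 1 + 2)).smeval (q + 1)
        = (descPochhammer ℤ (n + 2)).smeval (q + 1) * (q + 1 - (n + 2)) := by
      rw [show n + 1 + 2 = (n + 2) + 1 by ring, descPochhammer_succ_right, Polynomial.smeval_mul,
        Polynomial.smeval_sub, Polynomial.smeval_X, Polynomial.smeval_natCast]
      simp
    rw [h]
    have hf : ((n + 1 + 2).factorial : ℝ) = (n + 3) * ((n + 2).factorial : ℝ) := by
      rw [show n + 1 + 2 = (n + 2) + 1 by ring, Nat.factorial_succ]; push_cast; ring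
    have hf0 : ((n + 2).factorial : ℝ) ≠ 0 := by positivity
    have hn : (n : ℝ) + 3 ≠ 0 := by positivity
    simp only [smul_eq_mul, hf]
    field_simp
    ring

lemma hasSum_choose (a : ℝ) {x : ℝ} (hx : |x| < 1) :
    HasSum (fun n => Ring.choose a n * x ^ n) ((1 + x) ^ a) := by
  have h := (Real.one_add_rpow_hasFPowerSeriesOnBall_zero (a := a)).hasSum (y := x) (by
    rw [Metric.mem_eball, edist_zero_right, ← ofReal_norm, Real.norm_eq_abs]
    exact ENNReal.ofReal_lt_one.2 hx)
  have e : ∀ n, (binomialSeries ℝ a n fun _ => x) = Ring.choose a n * x ^ n := by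
    intro n
    rw [binomialSeries_apply]
    simp
  simp only [e, zero_add] at h
  exact h

lemma hasSum_W (q : ℝ) {x : ℝ} (hx : |x| < 1) :
    HasSum (fun n => W q n * x ^ (n + 2)) ((1 - x) ^ (q + 1) - 1 + (1 + q) * x) := by
  have h := hasSum_choose (q + 1) (x := -x) (by rwa [abs_neg])
  rw [← hasSum_nat_add_iff' 2] at h
  have e : ∀ n, Ring.choose (q + 1) (n + 2) * (-x) ^ (n + 2) = W q n * x ^ (n + 2) := by
    intro n
    rw [W_eq_choose, neg_pow x, pow_add (-1 : ℝ) n 2]
    ring
  simp only [e] at h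
  have e2 : (1 - x) ^ (q + 1) - 1 + (1 + q) * x = (1 + -x) ^ (q + 1)
      - ∑ i ∈ range 2, Ring.choose (q + 1) i * (-x) ^ i := by
    rw [Finset.sum_range_succ, Finset.sum_range_one, Ring.choose_zero_right, Ring.choose_one_right]
    rw [← sub_eq_add_neg]
    ring
  rw [e2]
  exact h

lemma hasSum_D (q : ℝ) {x : ℝ} (hx : |x| < 1) :
    HasSum (fun n : ℕ => (n + 2) * W q n * x ^ (n + 1)) ((1 + q) * (1 - (1 - x) ^ q)) := by
  have h := hasSum_choose q (x := -x) (by rwa [abs_neg])
  rw [← hasSum_nat_add_iff' 1] at h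
  have e : ∀ n : ℕ, -(1 + q) * (Ring.choose q (n + 1) * (-x) ^ (n + 1))
      = (n + 2) * W q n * x ^ (n + 1) := by
    intro n
    have h2 : (n + 2) * W q n = (-1) ^ n * ((1 + q) * Ring.choose q (n + 1)) := by
      rw [W_eq_choose, Ring.choose_eq_smul, Ring.choose_eq_smul]
      have h3 : (descPochhammer ℤ (n + 2)).smeval (q + 1)
          = (q + 1) * (descPochhammer ℤ (n + 1)).smeval q := by
        have := Ring.descPochhammer_succ_succ_smeval q (n + 1)
        have h4 : (descPochhammer ℤ (n + 2)).smeval (q + 1) =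
          (q + 1) * (descPochhammer ℤ (n + 1)).smeval q := by
          rw [descPochhammer_succ_left, Polynomial.smeval_mul, Polynomial.smeval_X,
            Polynomial.smeval_comp, Polynomial.smeval_sub, Polynomial.smeval_X,
            Polynomial.smeval_one]
          simp
        exact h4
      rw [h3]
      have hf : ((n + 2).factorial : ℝ) = (n + 2) * ((n + 1).factorial : ℝ) := by
        rw [show n + 2 = (n + 1) + 1 by ring, Nat.factorial_succ]; push_cast; ring
      have hf0 : ((n + 1).factorial : ℝ) ≠ 0 := by positivity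
      have hn : (n : ℝ) + 2 ≠ 0 := by positivity
      simp only [smul_eq_mul, hf]
      field_simp
      ring
    rw [h2, neg_pow x, pow_succ (-1 : ℝ) n]
    ring
  have h5 := h.mul_left (-(1 + q))
  simp only [e] at h5
  have e2 : (1 + q) * (1 - (1 - x) ^ q) = -(1 + q) * ((1 + -x) ^ q
      - ∑ i ∈ range 1, Ring.choose q i * (-x) ^ i) := by
    rw [Finset.sum_range_one, Ring.choose_zero_right, ← sub_eq_add_neg]
    ring
  rw [e2]
  exact h5

/-- The tangent function. -/
noncomputable def F (q x : ℝ) : ℝ := (1 - x) ^ q * (1 + q * x)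

lemma hasSum_F (q : ℝ) {x : ℝ} (hx : |x| < 1) :
    HasSum (fun n : ℕ => (n + 1) * W q n * x ^ (n + 2)) (1 - F q x) := by
  have h1 := (hasSum_D q hx).mul_left x
  have h2 := h1.sub (hasSum_W q hx)
  have e1 : (fun n : ℕ => (n + 1) * W q n * x ^ (n + 2))
      = fun n : ℕ => x * ((n + 2) * W q n * x ^ (n + 1)) - W q n * x ^ (n + 2) := by
    ext n; ring
  have e2 : 1 - F q x = x * ((1 + q) * (1 - (1 - x) ^ q)) - ((1 - x) ^ (q + 1) - 1 + (1 + q) * x) := by
    unfold F
    have hx' : 0 < 1 - x := by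
      have := (abs_lt.1 hx).2
      linarith
    rw [Real.rpow_add_one hx'.ne']
    ring
  rw [e1, e2]
  exact h2

lemma F_zero (q : ℝ) : F q 0 = 1 := by unfold F; simp

/-- `W` is bounded by `W 1 * 6 / ((n+1)(n+2))`. -/
lemma W_le {q : ℝ} (h0 : 0 ≤ q) (h1 : q ≤ 1) (n : ℕ) :
    W q (n + 1) ≤ W q 1 * (6 / ((n + 2) * (n + 3))) := by
  induction n with
  | zero => norm_num
  | succ n ih =>
    have hn : (0 : ℝ) ≤ n := Nat.cast_nonneg n
    have hW := W_nonneg h0 h1 (n + 1)
    rw [W_succ q (n + 1)]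
    have h2 : ((n + 1 : ℕ) + 1 - q) / (((n + 1 : ℕ) : ℝ) + 3) ≤ ((n : ℝ) + 2) / (n + 4) := by
      push_cast
      rw [div_le_div_iff₀ (by linarith) (by linarith)]
      nlinarith
    calc W q (n + 1) * (((n + 1 : ℕ) + 1 - q) / (((n + 1 : ℕ) : ℝ) + 3))
        ≤ W q (n + 1) * (((n : ℝ) + 2) / (n + 4)) := mul_le_mul_of_nonneg_left h2 hW
      _ ≤ W q 1 * (6 / ((n + 2) * (n + 3))) * (((n : ℝ) + 2) / (n + 4)) :=
          mul_le_mul_of_nonneg_right ih (by positivity)
      _ = W q 1 * (6 / (((n + 1 : ℕ) + 2) * ((n + 1 : ℕ) + 3))) := by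
          push_cast
          have : (n : ℝ) + 2 ≠ 0 := by linarith
          have : (n : ℝ) + 3 ≠ 0 := by linarith
          have : (n : ℝ) + 4 ≠ 0 := by linarith
          field_simp
          ring

end Pool.Agent.RieszSmall
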