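import Pool.Agent.RieszSmall.Lower

set_option autoImplicit false

open Real Finset

namespace Pool.Agent.RieszSmall

section

variable {ι : Type*} [Fintype ι] [DecidableEq ι] {V : Type*} [NormedAddCommGroup V]
  [InnerProductSpace ℝ V]

/-- The points in `P` and the points outside `P` form two mutually orthogonal regular simplices
centred at the origin. -/
def OrthSimplices (P : Finset ι) (x : ι → V) : Prop :=
  (∀ i ∈ P, ∀ j ∈ P, i ≠ j → inner ℝ (x i) (x j) = -1 / ((P.card : ℝ) - 1)) ∧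
  (∀ i ∈ Pᶜ, ∀ j ∈ Pᶜ, i ≠ j → inner ℝ (x i) (x j) = -1 / ((Pᶜ.card : ℝ) - 1)) ∧
  (∀ i ∈ P, ∀ j ∈ Pᶜ, inner ℝ (x i) (x j) = (0 : ℝ))

variable {x : ι → V} {c s : ι → ℝ}

lemma orth_of_blocks {P : Finset ι} (hB : Blocks c s P)
    (hp : ∀ i j, i ≠ j → (1 - PP c s i j) * (1 - inner ℝ (x i) (x j)) = 1) :
    OrthSimplices P x := by
  obtain ⟨h1, h2, h3, h4, h5⟩ := hB
  have key : ∀ (n : ℕ) (g : ℝ), 1 < n → (1 - 1 / (n : ℝ)) * (1 - g) = 1 → g = -1 / ((n : ℝ) - 1) := by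
    intro n g hn hg
    have hn1 : (1 : ℝ) < n := by exact_mod_cast hn
    have h6 : (n : ℝ) - 1 ≠ 0 := by linarith
    have h7 : (n : ℝ) ≠ 0 := by linarith
    rw [eq_div_iff h6]
    field_simp at hg
    linarith
  refine ⟨fun i hi j hj hij => ?_, fun i hi j hj hij => ?_, fun i hi j hj => ?_⟩
  · have := hp i j hij
    rw [h1 i hi j hj] at this
    exact key _ _ h4 this
  · have := hp i j hij
    rw [h2 i hi j hj] at this
    exact key _ _ h5 this
  · have hij : i ≠ j := by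
      rintro rfl
      exact (Finset.mem_compl.1 hj) hi
    have := hp i j hij
    rw [h3 i hi j hj] at this
    linarith

/-- Energy of two orthogonal simplices. -/
lemma En_orth {P : Finset ι} (hx : OrthSimplices P x) (hP : 1 < P.card) (hQ : 1 < Pᶜ.card)
    (q : ℝ) : En q x = Est q P.card Pᶜ.card := by
  obtain ⟨h1, h2, h3⟩ := hx
  have key : ∀ n : ℕ, 1 < n → ((n : ℝ) * (n - 1)) * (1 - -1 / ((n : ℝ) - 1)) ^ (-q)
      = (n : ℝ) ^ 2 * (1 - 1 / (n : ℝ)) ^ (q + 1) := by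
    intro n hn
    have hn1 : (1 : ℝ) < n := by exact_mod_cast hn
    have h6 : (0 : ℝ) < n - 1 := by linarith
    have h7 : (0 : ℝ) < n := by linarith
    have e1 : (1 : ℝ) - -1 / ((n : ℝ) - 1) = (((n : ℝ) - 1) / n)⁻¹ := by
      rw [inv_div]; field_simp; ring
    have e2 : 1 - 1 / (n : ℝ) = ((n : ℝ) - 1) / n := by field_simp
    have h8 : 0 < ((n : ℝ) - 1) / n := by positivity
    rw [e1, e2, Real.inv_rpow h8.le, Real.rpow_neg h8.le, inv_inv, Real.rpow_add_one h8.ne']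
    field_simp
  have hrow : ∀ (R : Finset ι), 1 < R.card → (∀ i ∈ R, ∀ j ∈ R, i ≠ j →
      inner ℝ (x i) (x j) = -1 / ((R.card : ℝ) - 1)) → ∀ i ∈ R,
      ∑ j ∈ R, (if i = j then 0 else (1 - inner ℝ (x i) (x j)) ^ (-q))
        = ((R.card : ℝ) - 1) * (1 - -1 / ((R.card : ℝ) - 1)) ^ (-q) := by
    intro R hR hin i hi
    rw [← Finset.add_sum_erase _ _ hi, if_pos rfl, zero_add]
    rw [Finset.sum_congr rfl (g := fun _ => (1 - -1 / ((R.card : ℝ) - 1)) ^ (-q)) (fun j hj => by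
      have hne : i ≠ j := (Finset.ne_of_mem_erase hj).symm
      rw [if_neg hne, hin i hi j (Finset.mem_of_mem_erase hj) hne])]
    rw [Finset.sum_const, Finset.card_erase_of_mem hi, nsmul_eq_mul]
    congr 1
    rw [Nat.cast_sub (by omega)]
    push_cast; ring
  have hcross : ∀ i ∈ P, ∀ j ∈ Pᶜ, (if i = j then 0 else (1 - inner ℝ (x i) (x j)) ^ (-q)) = (1 : ℝ) := by
    intro i hi j hj
    have hij : i ≠ j := by
      rintro rfl
      exact (Finset.mem_compl.1 hj) hi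
    rw [if_neg hij, h3 i hi j hj]
    simp
  have hcross' : ∀ i ∈ Pᶜ, ∀ j ∈ P, (if i = j then 0 else (1 - inner ℝ (x i) (x j)) ^ (-q)) = (1 : ℝ) := by
    intro i hi j hj
    have hij : i ≠ j := by
      rintro rfl
      exact (Finset.mem_compl.1 hi) hj
    rw [if_neg hij, real_inner_comm, h3 j hj i hi]
    simp
  unfold En
  rw [← Finset.sum_add_sum_compl P]
  have e1 : ∑ i ∈ P, ∑ j, (if i = j then 0 else (1 - inner ℝ (x i) (x j)) ^ (-q))
      = ∑ i ∈ P, (((P.card : ℝ) - 1) * (1 - -1 / ((P.card : ℝ) - 1)) ^ (-q) + Pᶜ.card) := by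
    refine Finset.sum_congr rfl (fun i hi => ?_)
    rw [← Finset.sum_add_sum_compl P, hrow P hP h1 i hi, Finset.sum_congr rfl (hcross i hi)]
    simp
  have e2 : ∑ i ∈ Pᶜ, ∑ j, (if i = j then 0 else (1 - inner ℝ (x i) (x j)) ^ (-q))
      = ∑ i ∈ Pᶜ, ((P.card : ℝ) + ((Pᶜ.card : ℝ) - 1) * (1 - -1 / ((Pᶜ.card : ℝ) - 1)) ^ (-q)) := by
    refine Finset.sum_congr rfl (fun i hi => ?_)
    rw [← Finset.sum_add_sum_compl P, hrow Pᶜ hQ h2 i hi, Finset.sum_congr rfl (hcross' i hi)]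
    simp
  rw [e1, e2, Finset.sum_const, Finset.sum_const, nsmul_eq_mul, nsmul_eq_mul]
  unfold Est
  rw [← key _ hP, ← key _ hQ]
  ring

end

end Pool.Agent.RieszSmall
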