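import Pool.Agent.RieszSmall.Frame

set_option autoImplicit false

open Real Finset

namespace Pool.Agent.RieszSmall

/-- admissible constants -/
def Good (n : ℕ) (ρ : ℝ) : Prop :=
  0 ≤ ρ ∧ ∀ t : ℝ, 0 ≤ t → t ≤ 1 → ρ * min (t ^ 2) (1 - t ^ 2) ≤ t ^ 2 * (1 - t ^ n)

lemma good_one : Good 1 (29 / 100) := by
  refine ⟨by norm_num, fun t h0 h1 => ?_⟩
  rcases le_total (t ^ 2) (1 / 2) with h | h
  · have h2 : t ≤ 71 / 100 := by nlinarith
    have h3 : min (t ^ 2) (1 - t ^ 2) ≤ t ^ 2 := min_le_left _ _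
    have h4 : 29 / 100 * min (t ^ 2) (1 - t ^ 2) ≤ 29 / 100 * t ^ 2 := by linarith
    have h5 : 29 / 100 * t ^ 2 ≤ t ^ 2 * (1 - t) := by nlinarith [sq_nonneg t]
    simpa using h4.trans h5
  · have h3 : min (t ^ 2) (1 - t ^ 2) ≤ 1 - t ^ 2 := min_le_right _ _
    have h4 : 29 / 100 * min (t ^ 2) (1 - t ^ 2) ≤ 29 / 100 * (1 - t ^ 2) := by linarith
    have h6 : 70 / 100 ≤ t := by nlinarith
    have h5 : 29 / 100 * (1 - t ^ 2) ≤ t ^ 2 * (1 - t) := by
      have : 29 / 100 * (1 + t) ≤ t ^ 2 := by nlinarith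
      nlinarith
    simpa using h4.trans h5

lemma good_two : Good 2 (1 / 2) := by
  refine ⟨by norm_num, fun t h0 h1 => ?_⟩
  have ht : t ^ 2 ≤ 1 := by nlinarith
  rcases le_total (t ^ 2) (1 / 2) with h | h
  · have h3 : min (t ^ 2) (1 - t ^ 2) ≤ t ^ 2 := min_le_left _ _
    nlinarith [sq_nonneg t]
  · have h3 : min (t ^ 2) (1 - t ^ 2) ≤ 1 - t ^ 2 := min_le_right _ _
    nlinarith [sq_nonneg t]

lemma good_three : Good 3 (64 / 100) := by
  refine ⟨by norm_num, fun t h0 h1 => ?_⟩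
  rcases le_total (t ^ 2) (1 / 2) with h | h
  · have h2 : t ≤ 7072 / 10000 := by nlinarith
    have h3 : min (t ^ 2) (1 - t ^ 2) ≤ t ^ 2 := min_le_left _ _
    have h6 : t ^ 3 ≤ 36 / 100 := by
      have : t ^ 3 = t * t ^ 2 := by ring
      rw [this]
      nlinarith
    nlinarith [sq_nonneg t]
  · have h3 : min (t ^ 2) (1 - t ^ 2) ≤ 1 - t ^ 2 := min_le_right _ _
    have h6 : 707 / 1000 ≤ t := by nlinarith
    have h5 : 64 / 100 * (1 - t ^ 2) ≤ t ^ 2 * (1 - t ^ 3) := by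
      have h7 : 64 / 100 * (1 + t) ≤ t ^ 2 * (1 + t + t ^ 2) := by nlinarith
      have h8 : t ^ 2 * (1 - t ^ 3) = (1 - t) * (t ^ 2 * (1 + t + t ^ 2)) := by ring
      rw [h8]
      have h9 : 64 / 100 * (1 - t ^ 2) = (1 - t) * (64 / 100 * (1 + t)) := by ring
      rw [h9]
      exact mul_le_mul_of_nonneg_left h7 (by linarith)
    linarith

lemma good_zero (n : ℕ) : Good n 0 := by
  refine ⟨le_refl _, fun t h0 h1 => ?_⟩
  rw [zero_mul]
  have : t ^ n ≤ 1 := pow_le_one₀ h0 h1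
  exact mul_nonneg (sq_nonneg _) (by linarith)

lemma pair_low {n : ℕ} {ρ a b p x : ℝ} (hρ : Good n ρ) (ha : 0 ≤ a) (hb : 0 ≤ b)
    (h : p ^ 2 + x ^ 2 = a * b) :
    ρ * (((a ^ n + b ^ n) / 2) * min (p ^ 2) (x ^ 2))
      ≤ p ^ 2 * ((a ^ n + b ^ n) / 2 - p ^ n) := by
  set A : ℝ := (a ^ n + b ^ n) / 2 with hA
  have hA0 : 0 ≤ A := by rw [hA]; positivity
  set R : ℝ := √(a * b) with hR
  have hR0 : 0 ≤ R := Real.sqrt_nonneg _
  have hR2 : R ^ 2 = a * b := Real.sq_sqrt (by positivity)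
  have hRA : R ^ n ≤ A := by
    have := pow_le_avg ha hb (p := R) hR2.le n
    rwa [abs_of_nonneg hR0] at this
  have hp2 : p ^ 2 ≤ R ^ 2 := by rw [hR2, ← h]; nlinarith [sq_nonneg x]
  have hpn : p ^ n ≤ |p| ^ n := by rw [← abs_pow]; exact le_abs_self _
  rcases hR0.eq_or_lt with h0 | hpos
  · have hp0 : p ^ 2 = 0 := by rw [← h0] at hp2; nlinarith [sq_nonneg p]
    have hx0 : x ^ 2 = 0 := by rw [← h0] at hR2; nlinarith
    rw [hp0, hx0]; simp
  · set t : ℝ := |p| / R with ht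
    have ht0 : 0 ≤ t := by rw [ht]; positivity
    have hpR : |p| = R * t := by rw [ht]; field_simp
    have ht1 : t ≤ 1 := by
      rw [ht, div_le_one hpos]
      exact abs_le_of_sq_le_sq hp2 hR0
    have hpt : p ^ 2 = R ^ 2 * t ^ 2 := by rw [← sq_abs, hpR]; ring
    have hxt : x ^ 2 = R ^ 2 * (1 - t ^ 2) := by
      have : x ^ 2 = R ^ 2 - p ^ 2 := by rw [hR2]; linarith
      rw [this, hpt]; ring
    have hmin : min (p ^ 2) (x ^ 2) = R ^ 2 * min (t ^ 2) (1 - t ^ 2) := by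
      rw [hpt, hxt, mul_min_of_nonneg _ _ (sq_nonneg R)]
    have h1 : |p| ^ n ≤ A * t ^ n := by
      rw [hpR, mul_pow]
      exact mul_le_mul_of_nonneg_right hRA (by positivity)
    have h2 : p ^ 2 * (A - A * t ^ n) ≤ p ^ 2 * (A - p ^ n) :=
      mul_le_mul_of_nonneg_left (by linarith) (sq_nonneg _)
    have h3 := hρ.2 t ht0 ht1
    calc ρ * (A * min (p ^ 2) (x ^ 2)) = A * R ^ 2 * (ρ * min (t ^ 2) (1 - t ^ 2)) := by
          rw [hmin]; ring
      _ ≤ A * R ^ 2 * (t ^ 2 * (1 - t ^ n)) := mul_le_mul_of_nonneg_left h3 (by positivity)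
      _ = p ^ 2 * (A - A * t ^ n) := by rw [hpt]; ring
      _ ≤ _ := h2

variable {ι : Type*} [Fintype ι] {c s : ι → ℝ}

/-- the off-axis mass relative to the direction of `u k` -/
def vm (c s : ι → ℝ) (k : ι) : ℝ := ∑ i, min (PP c s k i ^ 2) (XX c s k i ^ 2)

omit [Fintype ι] in
lemma XX_sq_comm (i j : ι) : XX c s i j ^ 2 = XX c s j i ^ 2 := by unfold XX; ring

lemma Frame.Lo_ge (h : Frame c s) {n : ℕ} {ρ : ℝ} (hρ : Good n ρ) :
    ρ * ∑ k, dl c s k ^ n * vm c s k ≤ Lo c s n := by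
  have h1 : ∑ k, dl c s k ^ n * vm c s k
      = ∑ i, ∑ j, ((dl c s i ^ n + dl c s j ^ n) / 2) *
        min (PP c s i j ^ 2) (XX c s i j ^ 2) := by
    have e1 : ∑ k, dl c s k ^ n * vm c s k
        = ∑ i, ∑ j, dl c s i ^ n * min (PP c s i j ^ 2) (XX c s i j ^ 2) := by
      refine Finset.sum_congr rfl (fun i _ => ?_)
      unfold vm; rw [Finset.mul_sum]
    have e2 : ∑ i, ∑ j, dl c s i ^ n * min (PP c s i j ^ 2) (XX c s i j ^ 2)
        = ∑ i, ∑ j, dl c s j ^ n * min (PP c s i j ^ 2) (XX c s i j ^ 2) := by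
      rw [Finset.sum_comm]
      refine Finset.sum_congr rfl (fun i _ => Finset.sum_congr rfl (fun j _ => ?_))
      rw [PP_comm, XX_sq_comm]
    have e3 : ∑ i, ∑ j, ((dl c s i ^ n + dl c s j ^ n) / 2) *
        min (PP c s i j ^ 2) (XX c s i j ^ 2)
        = (∑ i, ∑ j, dl c s i ^ n * min (PP c s i j ^ 2) (XX c s i j ^ 2)
          + ∑ i, ∑ j, dl c s j ^ n * min (PP c s i j ^ 2) (XX c s i j ^ 2)) / 2 := by
      rw [← Finset.sum_add_distrib, Finset.sum_div]
      refine Finset.sum_congr rfl (fun i _ => ?_)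
      rw [← Finset.sum_add_distrib, Finset.sum_div]
      refine Finset.sum_congr rfl (fun j _ => ?_)
      ring
    rw [e3, ← e2, e1]; ring
  rw [h1, h.Lo_eq, Finset.mul_sum]
  refine Finset.sum_le_sum (fun i _ => ?_)
  rw [Finset.mul_sum]
  exact Finset.sum_le_sum (fun j _ => pair_low hρ (dl_nonneg i) (dl_nonneg j) (PP_sq_add i j))

omit [Fintype ι] in
lemma split_aux [Fintype ι] [DecidableEq ι] {p x : ι → ℝ} (hp : ∀ i, 0 ≤ p i) (hx : ∀ i, 0 ≤ x i)
    (hps : ∑ i, p i = 1) (hxs : ∑ i, x i = 1) {V : ℝ} (hV : V = ∑ i, min (p i) (x i)) :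
    ∃ P : Finset ι, ∃ η : ℝ, ∑ i ∈ P, (p i + x i) = 1 + η ∧ ∑ i ∈ Pᶜ, (p i + x i) = 1 - η ∧
      |η| ≤ V ∧ (V < 1 → P.Nonempty ∧ Pᶜ.Nonempty) := by
  classical
  set P : Finset ι := Finset.univ.filter (fun i => x i ≤ p i) with hP
  set VP : ℝ := ∑ i ∈ P, x i with hVP
  set VQ : ℝ := ∑ i ∈ Pᶜ, p i with hVQ
  have hVP0 : 0 ≤ VP := Finset.sum_nonneg (fun i _ => hx i)
  have hVQ0 : 0 ≤ VQ := Finset.sum_nonneg (fun i _ => hp i)
  have hVs : V = VP + VQ := by
    rw [hV, ← Finset.sum_add_sum_compl P]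
    congr 1
    · refine Finset.sum_congr rfl (fun i hi => ?_)
      rw [hP, Finset.mem_filter] at hi
      exact min_eq_right hi.2
    · refine Finset.sum_congr rfl (fun i hi => ?_)
      rw [Finset.mem_compl, hP, Finset.mem_filter] at hi
      simp only [Finset.mem_univ, true_and, not_le] at hi
      exact min_eq_left hi.le
  have h1 : ∑ i ∈ P, p i = 1 - VQ := by
    have := Finset.sum_add_sum_compl P p
    rw [hps] at this; linarith
  have h2 : ∑ i ∈ Pᶜ, x i = 1 - VP := by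
    have := Finset.sum_add_sum_compl P x
    rw [hxs] at this; linarith
  refine ⟨P, VP - VQ, ?_, ?_, ?_, ?_⟩
  · rw [Finset.sum_add_distrib, h1]; linarith
  · rw [Finset.sum_add_distrib, h2]; linarith
  · rw [hVs, abs_le]; constructor <;> linarith
  · intro hV1
    constructor
    · by_contra hcon
      rw [Finset.not_nonempty_iff_eq_empty] at hcon
      rw [hcon, Finset.sum_empty] at h1
      linarith
    · by_contra hcon
      rw [Finset.not_nonempty_iff_eq_empty] at hcon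
      rw [hcon, Finset.sum_empty] at h2
      linarith

/-- The axis choice. -/
lemma Frame.exists_split [DecidableEq ι] (h : Frame c s) :
    ∃ V η : ℝ, ∃ P : Finset ι, 0 ≤ V ∧ |η| ≤ V ∧ ∑ i ∈ P, dl c s i = 1 + η ∧
      ∑ i ∈ Pᶜ, dl c s i = 1 - η ∧ (V < 1 → P.Nonempty ∧ Pᶜ.Nonempty) ∧
      ∀ n ρ, Good n ρ → ρ * V * DD c s (n + 1) ≤ Lo c s n := by
  classical
  have hne : (Finset.univ.filter (fun k => 0 < dl c s k)).Nonempty := by
    by_contra hcon
    rw [Finset.not_nonempty_iff_eq_empty, Finset.filter_eq_empty_iff] at hcon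
    have h1 : ∑ i, dl c s i ≤ 0 := Finset.sum_nonpos (fun i _ => by
      have := hcon (Finset.mem_univ i); linarith)
    rw [h.sum_dl] at h1
    norm_num at h1
  obtain ⟨k, hk, hmin⟩ := Finset.exists_min_image _ (fun k => vm c s k / dl c s k) hne
  rw [Finset.mem_filter] at hk
  have hk0 : 0 < dl c s k := hk.2
  set V : ℝ := vm c s k / dl c s k with hV
  have hvm0 : ∀ i, 0 ≤ vm c s i := fun i =>
    Finset.sum_nonneg (fun j _ => le_min (sq_nonneg _) (sq_nonneg _))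
  have hV0 : 0 ≤ V := div_nonneg (hvm0 k) hk0.le
  have hall : ∀ i, V * dl c s i ≤ vm c s i := by
    intro i
    rcases (dl_nonneg (c := c) (s := s) i).eq_or_lt with h0 | hpos
    · rw [← h0, mul_zero]; exact hvm0 i
    · have := hmin i (by rw [Finset.mem_filter]; exact ⟨Finset.mem_univ _, hpos⟩)
      rwa [le_div_iff₀ hpos] at this
  obtain ⟨P, η, hP1, hP2, hη, hPne⟩ := split_aux (p := fun i => PP c s k i ^ 2 / dl c s k)
    (x := fun i => XX c s k i ^ 2 / dl c s k) (fun i => by positivity) (fun i => by positivity)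
    (by rw [← Finset.sum_div, h.sum_PP_sq, div_self hk0.ne'])
    (by rw [← Finset.sum_div, h.sum_XX_sq, div_self hk0.ne'])
    (V := V) (by
      rw [hV]; unfold vm; rw [Finset.sum_div]
      refine Finset.sum_congr rfl (fun i _ => ?_)
      rw [min_div_div_right hk0.le])
  have hsum : ∀ i, PP c s k i ^ 2 / dl c s k + XX c s k i ^ 2 / dl c s k = dl c s i := by
    intro i
    rw [← add_div, PP_sq_add]; field_simp
  simp only [hsum] at hP1 hP2
  refine ⟨V, η, P, hV0, hη, hP1, hP2, hPne, fun n ρ hρ => ?_⟩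
  refine le_trans ?_ (h.Lo_ge hρ)
  rw [mul_assoc]
  apply mul_le_mul_of_nonneg_left _ hρ.1
  unfold DD
  rw [Finset.mul_sum]
  refine Finset.sum_le_sum (fun i _ => ?_)
  rw [pow_succ]
  have h1 := mul_le_mul_of_nonneg_left (hall i) (pow_nonneg (dl_nonneg (c := c) (s := s) i) n)
  nlinarith

end Pool.Agent.RieszSmall
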